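import Mathlib
import Pool.Agent.Lib.H13E.Q5
import Pool.Agent.Lib.H19X.Defs
import Pool.Agent.Lib.H55C.W7
import Pool.Agent.Lib.H55N.T0

/-!
# H19Y: the exact criterion, analytic half (p = 2)

The twisted Hecke L-values over all subfields of Galois 2-extensions of F unramified above 6.
See PROOF.md.
-/

open NumberField IsDedekindDomain

namespace H19Y

open H55B H55C H55E H55N H19X

/-- Integral and not a unit above 2. -/
def Non2 (z : ℂ) : Prop := ∀ V : ValuationSubring ℂ, V.valuation 2 < 1 → V.valuation z < 1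

/-- Quadratic characters with conductor dividing f, on ideals, trivial on principal ideals of
elements congruent to 1 modulo f; f is prime to 2. -/
structure QChr6 {K : Type} [Field K] [NumberField K] (f : Ideal (𝓞 K)) (χ : Ideal (𝓞 K) →*₀ ℂ) :
    Prop where
  ne : f ≠ ⊥
  two : IsCoprime f (Ideal.span {(2 : 𝓞 K)})
  val : ∀ a : Ideal (𝓞 K), a ≠ ⊥ → IsCoprime a f → χ a = 1 ∨ χ a = -1
  zero : ∀ a : Ideal (𝓞 K), ¬ IsCoprime a f → χ a = 0
  per : ∀ x y : 𝓞 K, x ≠ 0 → y ≠ 0 → IsCoprime (Ideal.span {x}) f → x - y ∈ f →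
    χ (Ideal.span {x}) = χ (Ideal.span {y})

theorem QChr6.norm_le {K : Type} [Field K] [NumberField K] {f : Ideal (𝓞 K)}
    {χ : Ideal (𝓞 K) →*₀ ℂ} (h : QChr6 f χ) (a : Ideal (𝓞 K)) : ‖χ a‖ ≤ 1 := by
  by_cases ha : a = ⊥
  · rw [ha, ← Ideal.zero_eq_bot, map_zero, norm_zero]
    exact zero_le_one
  by_cases hc : IsCoprime a f
  · rcases h.val a ha hc with h1 | h1 <;> rw [h1] <;> simp
  · rw [h.zero a hc, norm_zero]
    exact zero_le_one

variable {K : Type} [Field K] [NumberField K] [Algebra F K]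

theorem val6 (hU : UnrSix K)
    (w : HeightOneSpectrum (𝓞 K)) (h6 : (6 : 𝓞 K) ∈ w.asIdeal) (π : O) (hπ : Prime π)
    (hw : algebraMap O (𝓞 K) π ∈ w.asIdeal) :
    w.valuation K (algebraMap O K π) = WithZero.exp (-1 : ℤ) := by
  have hwm := w.isMaximal
  have hwp := w.isPrime
  let v : HeightOneSpectrum O := ⟨Ideal.span {π}, (Ideal.span_singleton_prime hπ.ne_zero).2 hπ,
    by simpa using hπ.ne_zero⟩
  have hvm := v.isMaximal
  have hunder : v.asIdeal = w.asIdeal.under O := by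
    apply hvm.eq_of_le (Ideal.IsPrime.ne_top inferInstance)
    show Ideal.span {π} ≤ _
    rw [Ideal.span_singleton_le_iff_mem]
    exact hw
  have hl : w.asIdeal.LiesOver v.asIdeal := ⟨hunder⟩
  have hram : v.asIdeal.ramificationIdx' w.asIdeal = 1 := by
    rw [Ideal.ramificationIdx'_eq_ramificationIdx v.asIdeal w.asIdeal v.ne_bot]
    exact hU w h6
  have h4 := HeightOneSpectrum.valuation_liesOver K v w (algebraMap O F π)
  rw [hram, pow_one] at h4
  rw [IsScalarTower.algebraMap_apply O F K, ← h4, HeightOneSpectrum.valuation_of_algebraMap]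
  exact HeightOneSpectrum.intValuation_singleton v hπ.ne_zero rfl

omit [Algebra F K] in
theorem six_of_two (w : HeightOneSpectrum (𝓞 K)) (h2 : (2 : 𝓞 K) ∈ w.asIdeal) :
    (6 : 𝓞 K) ∈ w.asIdeal := by
  have : (6 : 𝓞 K) = 3 * 2 := by norm_num
  rw [this]
  exact w.asIdeal.mul_mem_left _ h2

omit [Algebra F K] in
theorem six_of_three (w : HeightOneSpectrum (𝓞 K)) (h3 : (3 : 𝓞 K) ∈ w.asIdeal) :
    (6 : 𝓞 K) ∈ w.asIdeal := by
  have : (6 : 𝓞 K) = 2 * 3 := by norm_num
  rw [this]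
  exact w.asIdeal.mul_mem_left _ h3

theorem val_two (hU : UnrSix K) (w : HeightOneSpectrum (𝓞 K)) (h2 : (2 : 𝓞 K) ∈ w.asIdeal) :
    w.valuation K (2 : K) = WithZero.exp (-1 : ℤ) := by
  have h := val6 hU w (six_of_two w h2) 2 two_prime (by rw [map_ofNat]; exact h2)
  rwa [map_ofNat] at h

theorem val_lam (hU : UnrSix K)
    (w : HeightOneSpectrum (𝓞 K)) (h3 : (3 : 𝓞 K) ∈ w.asIdeal) :
    w.valuation K (algebraMap O K (om - 1)) = WithZero.exp (-1 : ℤ) := by
  have hwm := w.isMaximal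
  have hwp := w.isPrime
  apply val6 hU w (six_of_three w h3) (om - 1) lam_prime
  have h1 : (3 : 𝓞 K) = algebraMap O (𝓞 K) 3 := (map_ofNat (algebraMap O (𝓞 K)) 3).symm
  rw [h1, three_eq, neg_mul, map_neg, Ideal.neg_mem_iff, map_mul] at h3
  rcases hwp.mem_or_mem h3 with h2 | h2
  · exact absurd h2 (G5_om _ _ hwm.ne_top)
  · rw [map_pow] at h2
    exact hwp.mem_of_pow_mem _ h2

theorem val_three (hU : UnrSix K) (w : HeightOneSpectrum (𝓞 K)) (h3 : (3 : 𝓞 K) ∈ w.asIdeal) :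
    w.valuation K (3 : K) = WithZero.exp (-2 : ℤ) := by
  have h1 := H19Y.val_lam hU w h3
  have h2 : (3 : K) = algebraMap O K 3 := (map_ofNat (algebraMap O K) 3).symm
  have hu : IsUnit (algebraMap O (𝓞 K) (om ^ 2)) := by
    have hom3 : (om : O) ^ 2 * om = 1 := by
      have := om_rel
      linear_combination (om - 1) * this
    exact (IsUnit.of_mul_eq_one om hom3).map _
  have h4 : w.valuation K (algebraMap O K (om ^ 2)) = 1 := by
    have h5 : algebraMap O K (om ^ 2) = algebraMap (𝓞 K) K (algebraMap O (𝓞 K) (om ^ 2)) :=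
      IsScalarTower.algebraMap_apply O (𝓞 K) K _
    rw [h5, HeightOneSpectrum.valuation_of_algebraMap, HeightOneSpectrum.intValuation_eq_one_iff]
    intro h6
    exact w.isPrime.ne_top (Ideal.eq_top_of_isUnit_mem _ h6 hu)
  rw [h2, three_eq, neg_mul, map_neg, Valuation.map_neg, map_mul, map_mul, h4, map_pow _ (om - 1),
    map_pow, h1, one_mul]
  rfl

theorem Sub6.inertia (h : Sub6 K) (w : HeightOneSpectrum (𝓞 K)) :
    ∃ j : ℕ, w.asIdeal.inertiaDeg O = 2 ^ j := by
  obtain ⟨L, _, _, _, _, _, ⟨hG, k, hk⟩, -⟩ := h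
  obtain ⟨W, hW, hW2⟩ := T0_above L w
  obtain ⟨j, hj⟩ := inertia_pow hG k hk W
  have h2 := Ideal.inertiaDeg_tower (R := O) w.asIdeal W.asIdeal
  have h3 : w.asIdeal.inertiaDeg O ∣ 2 ^ j := by
    rw [← hj, h2]
    exact dvd_mul_right _ _
  obtain ⟨i, -, hi⟩ := (Nat.dvd_prime_pow Nat.prime_two).1 h3
  exact ⟨i, hi⟩

theorem odd_discr (K : Type) [Field K] [NumberField K] [Algebra F K] (hK : UnrSix K) :
    Odd (NumberField.discr K) := by
  rw [← Int.not_even_iff_odd, even_iff_two_dvd,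
    NumberField.not_dvd_discr_iff_forall_mem K (𝓞 K) Int.prime_two]
  intro P hP h2
  have hPne : P ≠ ⊥ := by
    rintro rfl
    rw [Ideal.mem_bot] at h2
    norm_num at h2
  let w : HeightOneSpectrum (𝓞 K) := ⟨P, hP, hPne⟩
  have hv : (P.under O).IsPrime := inferInstance
  have h2v : (2 : O) ∈ P.under O := by
    rw [Ideal.under_def, Ideal.mem_comap, map_ofNat]
    exact_mod_cast h2
  have h2w : (2 : 𝓞 K) ∈ w.asIdeal := by exact_mod_cast h2
  have he : P.ramificationIdx O = 1 := hK w (six_of_two w h2w)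
  have hF := (NumberField.not_dvd_discr_iff_forall_mem F O Int.prime_two).1 W7_discrF
    (P.under O) hv (by exact_mod_cast h2v)
  have he2 : (P.under O).ramificationIdx ℤ = 1 := Ideal.ramificationIdx_eq_one_iff.2 hF
  have ht := Ideal.ramificationIdx_tower (R := ℤ) (P.under O) P
  rw [he, he2, mul_one] at ht
  exact Ideal.ramificationIdx_eq_one_iff.1 ht

variable {K₀ : Type} [Field K₀] [NumberField K₀]

theorem odd_discr0 (K : Type) [Field K] [NumberField K] [Algebra F K] [Algebra K₀ K] (hU : UnrSix K) :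
    Odd (NumberField.discr K₀) := by
  obtain ⟨z, hz⟩ := NumberField.discr_dvd_discr K₀ K
  have h := H19Y.odd_discr K hU
  rw [hz, Int.odd_mul] at h
  exact h.1

theorem val0_three (K : Type) [Field K] [NumberField K] [Algebra F K] [Algebra K₀ K] (hU : UnrSix K)
    (w' : HeightOneSpectrum (𝓞 K₀)) (h3 : (3 : 𝓞 K₀) ∈ w'.asIdeal) :
    w'.valuation K₀ (3 : K₀) = WithZero.exp (-1 : ℤ) ∨
      w'.valuation K₀ (3 : K₀) = WithZero.exp (-2 : ℤ) := by
  obtain ⟨w, e, hw, he, hv⟩ := H13E.q5_above K w'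
  have h1 := H19Y.val_three hU w ((H13E.q5_mem w' w hw 3).1 h3)
  have h4 := hv 3
  rw [map_ofNat, h1] at h4
  obtain ⟨k, hk, hk2⟩ := H13E.q5_val w' three_ne_zero h4
  have h5 : (e : ℤ) ∣ 2 := ⟨-k, by linear_combination -hk2⟩
  have h6 := Int.le_of_dvd two_pos h5
  have h7 : (e : ℤ) = 1 ∨ (e : ℤ) = 2 := by omega
  rcases h7 with h7 | h7 <;> rw [h7] at hk2
  · right
    rw [hk]
    congr 1
    omega
  · left
    rw [hk]
    congr 1
    omega

end H19Y
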