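import Mathlib
import Pool.Agent.Lib.H19X.T4
import Pool.Agent.Lib.H19Y.Y0
import Pool.Agent.Lib.H55N.Defs

/-! Definitions for the exact criterion at 2 for the twists E_d of y^2 + y = x^3. -/

open NumberField IsDedekindDomain

namespace H19Y

open H55B H55C H55E H55N H19X

open Classical in
/-- The number of torsion points of E_d over K. -/
noncomputable def torsd (d : ℤ) (K : Type) [Field K] [NumberField K] : ℕ :=
  Nat.card {P : ((Ed d).baseChange K).toAffine.Point // IsOfFinAddOrder P}

/-- The analytic order of the Tate-Shafarevich group of E_d over K predicted by the formula of Birch and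
Swinnerton-Dyer in rank 0 (with the order of the torsion subgroup; it is 0 if L1 = 0); L1 is the value of
the L-function at 1, L the period lattice of dx/(2y+1), Omr its real period, Om twice the area of a
period parallelogram, tamd the Tamagawa numbers. -/
noncomputable def shaTd (d : ℤ) (K : Type) [Field K] [NumberField K] (L : PeriodPair) (L1 : ℂ) : ℂ :=
  L1 * (Real.sqrt |(NumberField.discr K : ℝ)| : ℝ) * (torsd d K : ℂ) ^ 2 /
    ((H55D.Omr L : ℂ) ^ NumberField.InfinitePlace.nrRealPlaces K *
      (Om L : ℂ) ^ NumberField.InfinitePlace.nrComplexPlaces K *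
      ∏ᶠ w : HeightOneSpectrum (𝓞 K), (tamd d K w : ℂ))

/-- The 2-Selmer group of E_d over K is trivial. -/
def SelZ (d : ℤ) (K : Type) [Field K] [NumberField K] : Prop :=
  ∀ m ∈ Seld d K, ∃ b : Cub K, m = b ^ 2

/-- The L-function of E_d over K continues, the analytic order of the Tate-Shafarevich group is 2-integral, and
it is a 2-adic unit if and only if the 2-Selmer group is trivial, if and only if 2 is not a cube modulo any
ramified prime of K which does not divide 6; in the other case it has positive valuation for every valuation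
above 2. -/
def Crit (d : ℤ) (K : Type) [Field K] [NumberField K] : Prop :=
  (∃ L : PeriodPair, L.g₂ = 0 ∧ L.g₃ = -(d : ℂ) ^ 3) ∧
  ∃ Λ : ℂ → ℂ, AnalyticOnNhd ℂ Λ {s | 1 / 2 < s.re} ∧
    (∀ s : ℂ, 3 / 2 < s.re →
      LSeriesSummable (fun n => ((((Ed d).baseChange K).LFunction n : ℤ) : ℂ)) s ∧
      Λ s = ((Ed d).baseChange K).LSeries s) ∧
    ∀ L : PeriodPair, L.g₂ = 0 → L.g₃ = -(d : ℂ) ^ 3 →
      Int2 (shaTd d K L (Λ 1)) ∧
      (SelZ d K ↔ Λ 1 ≠ 0 ∧ Unit2 (shaTd d K L (Λ 1))) ∧
      (SelZ d K ↔ GoodRam K) ∧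
      (¬ SelZ d K → Non2 (shaTd d K L (Λ 1)))

end H19Y
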