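import Mathlib
import Pool.Agent.Lib.H19X.T1
import Pool.Agent.Lib.H19Y.Y1
import Pool.Agent.Lib.H55N.TWF

/-! The twisted L-value: congruence form (TWF of H55N for fields unramified above 6 and arbitrary odd conductors). -/

open NumberField IsDedekindDomain

namespace H19Y

open H55B H55C H55N H19X

variable {K : Type} [Field K] [NumberField K] [Algebra F K]

/-- Λ is the analytic continuation of the Dirichlet series of h to Re s > 1/2. -/
def LC (h : Ideal (𝓞 K) →*₀ ℂ) (Λ : ℂ → ℂ) : Prop :=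
  AnalyticOnNhd ℂ Λ {s | 1 / 2 < s.re} ∧ ∀ s : ℂ, 3 / 2 < s.re → HasSum (tm h s) (Λ s)

theorem exists_kappa6 (f : Ideal (𝓞 K)) (χ : Ideal (𝓞 K) →*₀ ℂ) (hχ : QChr6 f χ)
    (b : Ideal (𝓞 K)) (hb : b ≠ ⊥) (hbc : IsCoprime b (Ideal.span {6} * f)) (c₀ : 𝓞 K) (hc : c₀ ∈ b)
    (hp : ∀ w : HeightOneSpectrum (𝓞 K), Ideal.span {3} * f ≤ w.asIdeal → c₀ ∉ w.asIdeal * b) :
    ∃ κ κ' : ℂ, Unit2 κ' ∧ (κ = κ' ∨ κ = -κ') ∧
      ∀ x ∈ XS (Ideal.span {3} * f * b) c₀, ∀ a : Ideal (𝓞 K), a * b = Ideal.span {x} →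
        x ≠ 0 ∧
        (Psi K * χ) a = κ * (starRingEnd ℂ) (emb (Algebra.norm F (x : K))) ∧
        (Psi K * oneI f) a = κ' * (starRingEnd ℂ) (emb (Algebra.norm F (x : K))) := by
  classical
  have h3ne : (3 : 𝓞 K) ≠ 0 := by norm_num
  have h3f : Ideal.span {(3 : 𝓞 K)} * f ≠ ⊥ :=
    mul_ne_zero (fun h => h3ne (Ideal.span_singleton_eq_bot.1 h)) hχ.ne
  have h63 : Ideal.span {(6 : 𝓞 K)} * f ≤ Ideal.span {(3 : 𝓞 K)} * f := by
    refine Ideal.mul_mono_left ?_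
    rw [Ideal.span_singleton_le_span_singleton]
    exact ⟨2, by norm_num⟩
  have hb3f : IsCoprime b (Ideal.span {(3 : 𝓞 K)} * f) := by
    rw [Ideal.isCoprime_iff_sup_eq] at hbc ⊢
    exact top_le_iff.1 (hbc ▸ sup_le_sup_left h63 b)
  have hb3 : IsCoprime b (Ideal.span {(3 : 𝓞 K)}) := hb3f.of_mul_right_left
  have hbf : IsCoprime b f := hb3f.of_mul_right_right
  have hb2 : IsCoprime b (Ideal.span {(2 : 𝓞 K)}) := by
    have h1 : IsCoprime b (Ideal.span {(6 : 𝓞 K)}) := hbc.of_mul_right_left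
    have h2 : Ideal.span {(6 : 𝓞 K)} ≤ Ideal.span {(2 : 𝓞 K)} := by
      rw [Ideal.span_singleton_le_span_singleton]
      exact ⟨3, by norm_num⟩
    rw [Ideal.isCoprime_iff_sup_eq] at h1 ⊢
    exact top_le_iff.1 (h1 ▸ sup_le_sup_left h2 b)
  -- c₀ is prime to 3 f
  have hcop : IsCoprime (Ideal.span {c₀}) (Ideal.span {(3 : 𝓞 K)} * f) := by
    rw [Ideal.isCoprime_iff_sup_eq]
    by_contra hne
    obtain ⟨M, hM, hle⟩ := Ideal.exists_le_maximal _ hne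
    have hMf : Ideal.span {(3 : 𝓞 K)} * f ≤ M := le_sup_right.trans hle
    have hMc : Ideal.span {c₀} ≤ M := le_sup_left.trans hle
    have hM0 : M ≠ ⊥ := by
      rintro rfl
      exact h3f (le_bot_iff.1 hMf)
    have hbM : ¬ b ≤ M := by
      intro h
      rw [Ideal.isCoprime_iff_sup_eq] at hb3f
      exact hM.ne_top (top_le_iff.1 (hb3f ▸ sup_le h hMf))
    obtain ⟨d, hd⟩ := Ideal.dvd_iff_le.2 ((Ideal.span_singleton_le_iff_mem b).2 hc)
    rw [hd] at hMc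
    have hdM : d ≤ M := (hM.isPrime.mul_le.1 hMc).resolve_left hbM
    refine hp ⟨M, hM.isPrime, hM0⟩ hMf ?_
    have h1 : c₀ ∈ b * d := by rw [← hd]; exact Ideal.mem_span_singleton_self _
    rw [mul_comm]
    exact Ideal.mul_mono_right hdM h1
  have hXcop : ∀ x ∈ XS (Ideal.span {3} * f * b) c₀,
      IsCoprime (Ideal.span {x}) (Ideal.span {(3 : 𝓞 K)} * f) := by
    intro x hx
    have hx' : x - c₀ ∈ Ideal.span {(3 : 𝓞 K)} * f :=
      Ideal.mul_le_left (show x - c₀ ∈ Ideal.span {(3 : 𝓞 K)} * f * b from hx)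
    rw [Ideal.isCoprime_iff_exists] at hcop ⊢
    obtain ⟨i, hi, j, hj, hij⟩ := hcop
    obtain ⟨r, rfl⟩ := Ideal.mem_span_singleton.1 hi
    refine ⟨x * r, Ideal.mul_mem_right _ _ (Ideal.mem_span_singleton_self x),
      j - (x - c₀) * r, Ideal.sub_mem _ hj (Ideal.mul_mem_right _ _ hx'), ?_⟩
    linear_combination hij
  have hc3 : IsCoprime (Ideal.span {c₀}) (Ideal.span {(3 : 𝓞 K)}) := hcop.of_mul_right_left
  have hne0 : ∀ x : 𝓞 K, IsCoprime (Ideal.span {x}) (Ideal.span {(3 : 𝓞 K)}) → x ≠ 0 := by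
    rintro x hx rfl
    rw [Ideal.isCoprime_span_singleton_iff] at hx
    obtain ⟨r, t, hrt⟩ := hx
    rw [mul_zero, zero_add] at hrt
    have := H14_not_unit K 3 (by norm_num)
    rw [Nat.cast_ofNat] at this
    exact this (IsUnit.of_mul_eq_one _ ((mul_comm _ _).trans hrt))
  have hc0 : c₀ ≠ 0 := hne0 c₀ hc3
  obtain ⟨η, hη⟩ := Psi_span c₀ hc3
  have hPb : Psi K b ≠ 0 := (Psi_ne b hb).2 hb3
  have hχb := hχ.val b hb hbf
  have hc0' : Ideal.span {c₀} ≠ ⊥ := fun h => hc0 (Ideal.span_singleton_eq_bot.1 h)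
  have hχc := hχ.val (Ideal.span {c₀}) hc0' hcop.of_mul_right_right
  have hUη : Unit2 (e (η : O)) := by
    intro A hA
    refine val_e_odd A hA _ ?_
    rw [Nm_eq_one.2 η.isUnit]
    exact odd_one
  refine ⟨(starRingEnd ℂ) (e (η : O)) * (Psi K b)⁻¹ * (χ (Ideal.span {c₀}) * χ b),
    (starRingEnd ℂ) (e (η : O)) * (Psi K b)⁻¹, hUη.conj.mul (Unit2_Psi b hb hb3 hb2).inv, ?_, ?_⟩
  · rcases hχc with h1 | h1 <;> rcases hχb with h2 | h2 <;> rw [h1, h2] <;> norm_num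
  · intro x hx a hab
    have hxc := hXcop x hx
    have hx0 : x ≠ 0 := hne0 x hxc.of_mul_right_left
    have hx3 : x - c₀ ∈ Ideal.span {(3 : 𝓞 K)} :=
      Ideal.mul_le_left (Ideal.mul_le_left
        (show x - c₀ ∈ Ideal.span {(3 : 𝓞 K)} * f * b from hx))
    have hxf : x - c₀ ∈ f := by
      have h1 : x - c₀ ∈ Ideal.span {(3 : 𝓞 K)} * f :=
        Ideal.mul_le_left (show x - c₀ ∈ Ideal.span {(3 : 𝓞 K)} * f * b from hx)
      exact Ideal.mul_le_right h1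
    have hPx := hη x hx3
    have ha0 : a ≠ ⊥ := by
      rintro rfl
      apply hx0
      rw [← Ideal.span_singleton_eq_bot, ← hab]
      exact zero_mul b
    have haf : IsCoprime a f := by
      have h1 : IsCoprime (a * b) f := by rw [hab]; exact hxc.of_mul_right_right
      exact h1.of_mul_left_left
    have hPa : Psi K a = (starRingEnd ℂ) (e (η : O)) * (Psi K b)⁻¹ *
        (starRingEnd ℂ) (emb (Algebra.norm F (x : K))) := by
      have h1 : Psi K a * Psi K b = Psi K (Ideal.span {x}) := by rw [← map_mul, hab]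
      rw [hPx] at h1
      field_simp
      exact h1
    have hχa : χ a = χ (Ideal.span {c₀}) * χ b := by
      have h1 : χ a * χ b = χ (Ideal.span {x}) := by rw [← map_mul, hab]
      rw [hχ.per x c₀ hx0 hc0 hxc.of_mul_right_right hxf] at h1
      have h2 : χ b * χ b = 1 := by rcases hχb with h | h <;> rw [h] <;> norm_num
      calc χ a = (χ a * χ b) * χ b := by rw [mul_assoc, h2, mul_one]
        _ = _ := by rw [h1]
    refine ⟨hx0, ?_, ?_⟩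
    · show Psi K a * χ a = _
      rw [hPa, hχa]
      ring
    · show Psi K a * oneI f a = _
      have h1 : oneI f a = 1 := if_pos ⟨ha0, haf⟩
      rw [hPa, h1, mul_one]

theorem P_ne6 {K : Type} [Field K] [NumberField K] [Algebra F K] (f : Ideal (𝓞 K))
    (χ : Ideal (𝓞 K) →*₀ ℂ) (hχ : QChr6 f χ) (c : Ideal (𝓞 K)) (p : ℕ) (hp : p.Prime)
    (hc : Ideal.absNorm c = p) (s : ℂ) (hs : s.re < 3 / 2) :
    1 - (p : ℂ) * tm (Psi K * χ : Ideal (𝓞 K) →*₀ ℂ) s c ≠ 0 := by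
  have hp0 : (0 : ℝ) < p := by exact_mod_cast hp.pos
  have hp1 : (1 : ℝ) < p := by exact_mod_cast hp.one_lt
  have hc0 : c ≠ ⊥ := by
    intro h
    rw [h, Ideal.absNorm_bot] at hc
    exact hp.ne_zero hc.symm
  intro h
  have h1 : (p : ℂ) * tm (Psi K * χ : Ideal (𝓞 K) →*₀ ℂ) s c = 1 := by linear_combination -h
  have h2 : tm (Psi K * χ : Ideal (𝓞 K) →*₀ ℂ) s c = Psi K c * χ c * (p : ℂ) ^ (-s) := by
    unfold tm
    rw [hc]
    rfl
  rw [h2] at h1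
  have h3 : Psi K c ≠ 0 := by
    intro h0
    rw [h0] at h1
    simp at h1
  have h4 : χ c ≠ 0 := by
    intro h0
    rw [h0] at h1
    simp at h1
  have h5 : ‖χ c‖ = 1 := by
    have hcop : IsCoprime c f := by
      by_contra hn
      exact h4 (hχ.zero c hn)
    rcases hχ.val c hc0 hcop with h | h
    · rw [h, NormOneClass.norm_one]
    · rw [h, norm_neg, NormOneClass.norm_one]
  have h6 : ‖Psi K c‖ ^ 2 = p := by
    rw [Psi_norm c hc0 ((Psi_ne c hc0).1 h3), hc]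
  have h7 : ‖Psi K c‖ = (p : ℝ) ^ (1 / 2 : ℝ) := by
    rw [← Real.sqrt_eq_rpow, ← h6, Real.sqrt_sq (norm_nonneg _)]
  have h8 := congrArg norm h1
  rw [norm_mul, norm_mul, norm_mul, h5, h7, NormOneClass.norm_one, Complex.norm_natCast,
    Complex.norm_natCast_cpow_of_pos hp.pos, mul_one, Complex.neg_re] at h8
  have h9 : (p : ℝ) * ((p : ℝ) ^ (1 / 2 : ℝ) * (p : ℝ) ^ (-s.re)) = (p : ℝ) ^ (3 / 2 - s.re) := by
    have h11 : (3 / 2 - s.re) = 1 + (1 / 2 + -s.re) := by ring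
    rw [h11, Real.rpow_add hp0, Real.rpow_add hp0, Real.rpow_one]
  rw [h9] at h8
  have h10 : 1 < (p : ℝ) ^ (3 / 2 - s.re) := Real.one_lt_rpow hp1 (by linarith)
  rw [h8] at h10
  exact lt_irrefl _ h10

/-- The congruence between the twisted L-value and the L-value with the Euler factors at f removed. -/
theorem twist_cong (hS2 : Sub6 K) (f : Ideal (𝓞 K)) (χ : Ideal (𝓞 K) →*₀ ℂ)
    (hχ : QChr6 f χ) (ΛK : ℂ → ℂ) (hL : LC (Psi K) ΛK) :
    ∃ (Λ : ℂ → ℂ) (S : Finset (HeightOneSpectrum (𝓞 K))) (u r : ℂ), LC (Psi K * χ) Λ ∧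
      (∀ w, w ∈ S ↔ f ≤ w.asIdeal) ∧ Unit2 u ∧ Int2 r ∧
      Λ 1 / R0 ^ Module.finrank F K = u * ((∏ w ∈ S, (1 - tm (Psi K) 1 w.asIdeal)) *
        (ΛK 1 / R0 ^ Module.finrank F K)) + 2 * r := by
  classical
  obtain ⟨k, hk⟩ := sub6_rank hS2
  have hU := sub6_unrSix hS2
  obtain ⟨m, hm2⟩ : ∃ m, 2 ^ k = m + 1 := ⟨2 ^ k - 1, by
    have := Nat.one_le_two_pow (n := k)
    omega⟩
  have hm : Module.finrank F K = m + 1 := hk.trans hm2
  have hm3 : ¬ 3 ∣ m + 1 := TWF_pow_cop k m hm2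
  have hn3 : ¬ 3 ∣ Module.finrank F K := by rwa [hm]
  obtain ⟨ι, hι, b, c₀, T, hcd⟩ := exists_CD f hχ.ne
  have hf2 := hχ.two
  have h6 : ∀ i, IsCoprime (b i) (Ideal.span {(6 : 𝓞 K)}) := fun i => (hcd.cop i).of_mul_right_left
  have h63 : (Ideal.span {(6 : 𝓞 K)} : Ideal (𝓞 K)) = Ideal.span {2} * Ideal.span {3} := by
    rw [Ideal.span_singleton_mul_span_singleton]
    norm_num
  have hb2 : ∀ i, IsCoprime (b i) (Ideal.span {(2 : 𝓞 K)}) := fun i => by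
    have := h6 i
    rw [h63] at this
    exact this.of_mul_right_left
  have hlam : ∀ i, c₀ i ∉ Ideal.span {algebraMap O (𝓞 K) lam} * b i := fun i => TWF_lam (hcd.prim i)
  have hcore := fun i => core6 K m hm hU (b i) f (hcd.ne i) (hb2 i) hχ.ne hf2 (c₀ i) (hcd.mem i)
    (hlam i)
  choose Bad hBad hcore using hcore
  have hnop := fun i => nopoles K m hm hm3 (b i) f (hcd.ne i) hχ.ne (c₀ i) (hcd.mem i) (hlam i)
  choose Z0 hZ0 hZ0s using hnop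
  obtain ⟨c, p, hs, hcb, hun⟩ := exists_smooth K hn3 m
    ((⋃ i, Bad i) ∪ ⋃ i, {w : Ideal (𝓞 K) | b i ≤ w})
    ((Set.finite_iUnion hBad).union (Set.finite_iUnion fun i => TWF_finite (b i) (hcd.ne i)))
  have hcp : ∀ j, (c j).IsPrime := fun j => (hcb j).1
  have hbc : ∀ i j, IsCoprime (b i) (c j) := by
    intro i j
    rw [Ideal.isCoprime_iff_sup_eq]
    by_contra h
    have hmax : (c j).IsMaximal := (hcp j).isMaximal (TW_ne hs j)
    have h1 : c j ≤ b i ⊔ c j := le_sup_right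
    have h2 : b i ⊔ c j = c j := (hmax.eq_of_le h h1).symm
    apply (hcb j).2
    refine Or.inr (Set.mem_iUnion.2 ⟨i, ?_⟩)
    show b i ≤ c j
    rw [← h2]
    exact le_sup_left
  have hZex := fun i => hcore i c p hs (fun j hj => (hcb j).2 (Or.inl (Set.mem_iUnion.2 ⟨i, hj⟩)))
  choose Z hZa hZs hZi using hZex
  have hkap := fun i => exists_kappa6 f χ hχ (b i) (hcd.ne i) (hcd.cop i) (c₀ i) (hcd.mem i)
    (hcd.prim i)
  choose κ κ' hκu hκκ hκ using hkap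
  have hC : Coef f ι b c₀ (Psi K * χ) κ := coef_mul hχ.zero hχ.norm_le
    (fun i x hx a ha => ⟨(hκ i x hx a ha).1, (hκ i x hx a ha).2.1⟩)
  have hC' : Coef f ι b c₀ (Psi K * oneI f) κ' := coef_mul (oneI_zero f) (oneI_norm_le f)
    (fun i x hx a ha => ⟨(hκ i x hx a ha).1, (hκ i x hx a ha).2.2⟩)
  have hNb : ∀ i, Ideal.absNorm (b i) ≠ 0 := fun i => by
    rw [Ne, Ideal.absNorm_eq_zero_iff]
    exact hcd.ne i
  -- the smoothed functions
  have hZsum : ∀ i s, 3 / 2 < s.re → HasSum (fun x : T i => gw c p x * nf s (x : 𝓞 K)) (Z i s) :=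
    fun i s hs' => hZs i (T i) (hcd.trans i) s hs'
  have e1 : ∀ s : ℂ, 3 / 2 < s.re → (∏ j, (1 - (p j : ℂ) * tm (Psi K * χ : Ideal (𝓞 K) →*₀ ℂ) s (c j))) *
      ∑' a, tm (Psi K * χ : Ideal (𝓞 K) →*₀ ℂ) s a =
        ∑ i, κ i * (Ideal.absNorm (b i) : ℂ) ^ s * Z i s :=
    fun s hs' => series_eq hcd hC hs hcp hbc Z s hs' fun i => hZsum i s hs'
  have e2 : ∀ s : ℂ, 3 / 2 < s.re → (∏ j, (1 - (p j : ℂ) * tm (Psi K * oneI f : Ideal (𝓞 K) →*₀ ℂ) s (c j))) *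
      ∑' a, tm (Psi K * oneI f : Ideal (𝓞 K) →*₀ ℂ) s a =
        ∑ i, κ' i * (Ideal.absNorm (b i) : ℂ) ^ s * Z i s :=
    fun s hs' => series_eq hcd hC' hs hcp hbc Z s hs' fun i => hZsum i s hs'
  have e3 : ∀ s : ℂ, 3 / 2 < s.re → HasSum (tm (Psi K * χ : Ideal (𝓞 K) →*₀ ℂ) s)
      (∑ i, κ i * (Ideal.absNorm (b i) : ℂ) ^ s * Z0 i s) :=
    fun s hs' => series_eq0 hcd hC Z0 s fun i => hZ0s i (T i) (hcd.trans i) s hs'
  have hGa : ∀ κ : ι → ℂ, AnalyticOnNhd ℂ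
      (fun s : ℂ => ∑ i, κ i * (Ideal.absNorm (b i) : ℂ) ^ s * Z i s) {s | 1 / 2 < s.re} := by
    intro κ s hs'
    exact Finset.analyticAt_fun_sum _ fun i _ =>
      (analyticAt_const.mul (TW_pow_analytic _ (hNb i) Set.univ s trivial)).mul (hZa i s hs')
  have hZ0a : AnalyticOnNhd ℂ
      (fun s : ℂ => ∑ i, κ i * (Ideal.absNorm (b i) : ℂ) ^ s * Z0 i s)
      {s | 3 / 2 - 1 / (2 * (m + 1 : ℝ)) < s.re} := by
    intro s hs'
    exact Finset.analyticAt_fun_sum _ fun i _ =>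
      (analyticAt_const.mul (TW_pow_analytic _ (hNb i) Set.univ s trivial)).mul (hZ0 i s hs')
  have hPa : ∀ h : Ideal (𝓞 K) →*₀ ℂ, AnalyticOnNhd ℂ
      (fun s : ℂ => ∏ j, (1 - (p j : ℂ) * tm h s (c j))) {s | 1 / 2 < s.re} := by
    intro h s hs'
    exact Finset.analyticAt_fun_prod _ fun j _ =>
      (analyticAt_const.sub (analyticAt_const.mul
        (TW_tm_analytic h (c j) (TW_ne hs j) Set.univ s trivial)))
  obtain ⟨Λ, hΛa, hΛ, hΛG⟩ := glue (1 / (2 * (m + 1 : ℝ))) (by positivity)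
    (fun s : ℂ => ∑ i, κ i * (Ideal.absNorm (b i) : ℂ) ^ s * Z i s)
    (fun s : ℂ => ∑ i, κ i * (Ideal.absNorm (b i) : ℂ) ^ s * Z0 i s)
    (fun s : ℂ => ∏ j, (1 - (p j : ℂ) * tm (Psi K * χ : Ideal (𝓞 K) →*₀ ℂ) s (c j)))
    (hGa κ) hZ0a (hPa _)
    (fun s hs' => Finset.prod_ne_zero_iff.2 fun j _ => P_ne6 f χ hχ (c j) (p j) (hs.prime j)
      (hs.norm j) s hs')
    (fun s hs' => by
      show _ = _ * _
      rw [← e1 s hs', (e3 s hs').tsum_eq])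
  -- the value at 1
  obtain ⟨hKa, hKs⟩ := hL
  obtain ⟨S, hS, hSs⟩ := one_sum K f hχ.ne
  have e4 : ∀ s : ℂ, 1 / 2 < s.re →
      (∑ i, κ' i * (Ideal.absNorm (b i) : ℂ) ^ s * Z i s) =
      (∏ j, (1 - (p j : ℂ) * tm (Psi K * oneI f : Ideal (𝓞 K) →*₀ ℂ) s (c j))) *
        ((∏ w ∈ S, (1 - tm (Psi K) s w.asIdeal)) * ΛK s) := by
    intro s hs'
    refine ident (fun s : ℂ => ∑ i, κ' i * (Ideal.absNorm (b i) : ℂ) ^ s * Z i s)
      (fun s : ℂ => (∏ j, (1 - (p j : ℂ) * tm (Psi K * oneI f : Ideal (𝓞 K) →*₀ ℂ) s (c j))) *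
        ((∏ w ∈ S, (1 - tm (Psi K) s w.asIdeal)) * ΛK s)) (hGa κ') ?_ ?_ s hs'
    · refine (hPa _).mul (AnalyticOnNhd.mul ?_ hKa)
      intro z hz
      exact Finset.analyticAt_fun_prod _ fun w _ =>
        (analyticAt_const.sub (TW_tm_analytic (Psi K) w.asIdeal w.ne_bot Set.univ z trivial))
    · intro z hz
      show _ = _ * (_ * _)
      rw [← e2 z hz, (hSs z hz).tsum_eq, (hKs z hz).tsum_eq]
  have h1re : (1 / 2 : ℝ) < (1 : ℂ).re := by norm_num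
  have u1 : Unit2 (∏ j, (1 - (p j : ℂ) * tm (Psi K * χ : Ideal (𝓞 K) →*₀ ℂ) 1 (c j))) := by
    refine Unit2.prod _ _ fun j _ => TW_factor χ (c j) (p j) (hs.prime j) (hs.norm j)
      (hun j).1 (hun j).2 ?_
    by_cases hj : IsCoprime (c j) f
    · rcases hχ.val _ (TW_ne hs j) hj with h | h
      · exact Or.inl h
      · exact Or.inr (Or.inl h)
    · exact Or.inr (Or.inr (hχ.zero _ hj))
  have u2 : Unit2 (∏ j, (1 - (p j : ℂ) * tm (Psi K * oneI f : Ideal (𝓞 K) →*₀ ℂ) 1 (c j))) := by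
    refine Unit2.prod _ _ fun j _ => TW_factor (oneI f) (c j) (p j) (hs.prime j) (hs.norm j)
      (hun j).1 (hun j).2 ?_
    rcases oneI_eq f (c j) with h | h
    · exact Or.inl h
    · exact Or.inr (Or.inr h)
  have hε : ∀ i, ∃ ε : ℂ, Int2 ε ∧ κ i = κ' i + 2 * ε := by
    intro i
    rcases hκκ i with h | h
    · exact ⟨0, Int2_zero, by rw [h]; ring⟩
    · exact ⟨-κ' i, Int2_neg (Int2_of_unit (hκu i)), by rw [h]; ring⟩
  choose ε hε hεκ using hε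
  have e6 : (∑ i, κ i * (Ideal.absNorm (b i) : ℂ) ^ (1 : ℂ) * Z i 1) / R0 ^ Module.finrank F K =
      (∑ i, κ' i * (Ideal.absNorm (b i) : ℂ) ^ (1 : ℂ) * Z i 1) / R0 ^ Module.finrank F K +
      2 * ∑ i, ε i * ((Ideal.absNorm (b i) : ℕ) : ℂ) * (Z i 1 / R0 ^ (m + 1)) := by
    rw [hm, Finset.mul_sum, Finset.sum_div, Finset.sum_div, ← Finset.sum_add_distrib]
    refine Finset.sum_congr rfl fun i _ => ?_
    rw [hεκ i, Complex.cpow_one]
    ring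
  have e5 := hΛG 1 h1re
  have hne := u1.ne_zero
  have e7 : Λ 1 / R0 ^ Module.finrank F K =
      ((∑ i, κ i * (Ideal.absNorm (b i) : ℂ) ^ (1 : ℂ) * Z i 1) / R0 ^ Module.finrank F K) *
      (∏ j, (1 - (p j : ℂ) * tm (Psi K * χ : Ideal (𝓞 K) →*₀ ℂ) 1 (c j)))⁻¹ := by
    rw [e5]
    field_simp
  refine ⟨Λ, S, (∏ j, (1 - (p j : ℂ) * tm (Psi K * oneI f : Ideal (𝓞 K) →*₀ ℂ) 1 (c j))) *
    (∏ j, (1 - (p j : ℂ) * tm (Psi K * χ : Ideal (𝓞 K) →*₀ ℂ) 1 (c j)))⁻¹,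
    (∑ i, ε i * ((Ideal.absNorm (b i) : ℕ) : ℂ) * (Z i 1 / R0 ^ (m + 1))) *
    (∏ j, (1 - (p j : ℂ) * tm (Psi K * χ : Ideal (𝓞 K) →*₀ ℂ) 1 (c j)))⁻¹,
    ⟨hΛa, fun s hs' => ?_⟩, hS, u2.mul u1.inv, ?_, ?_⟩
  · rw [hΛ s hs']
    exact e3 s hs'
  · exact Int2_mul (Int2_sum _ _ fun i _ => Int2_mul (Int2_mul (hε i) (Int2_nat _)) (hZi i))
      (Int2_of_unit u1.inv)
  · rw [e7, e6, e4 1 h1re]
    ring

end H19Y
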