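import Mathlib
import Pool.Agent.Lib.H19Y.Y0
import Pool.Agent.Lib.H55B.X1
import Pool.Agent.Lib.H55N.H7
import Pool.Agent.Lib.H55N.I0
import Pool.Agent.Lib.H55N.TW3

/-! Euler factors at s = 1 modulo 2, and rules for Non2. -/

open NumberField IsDedekindDomain

namespace H19Y

open H55B H55C H55N H19X

theorem Non2.int {x : ℂ} (h : Non2 x) : Int2 x := fun V hV => (h V hV).le

theorem Non2.mul_int {x y : ℂ} (h : Non2 x) (hy : Int2 y) : Non2 (x * y) := fun V hV => by
  rw [map_mul]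
  exact mul_lt_one_of_lt_of_le (h V hV) (hy V hV)

theorem Int2.mul_non {x y : ℂ} (hx : Int2 x) (h : Non2 y) : Non2 (x * y) := by
  rw [mul_comm]
  exact h.mul_int hx

theorem Non2.add {x y : ℂ} (h : Non2 x) (hy : Non2 y) : Non2 (x + y) := fun V hV =>
  lt_of_le_of_lt (Valuation.map_add _ _ _) (max_lt (h V hV) (hy V hV))

theorem Non2_two {y : ℂ} (hy : Int2 y) : Non2 (2 * y) := fun V hV => by
  rw [map_mul]
  exact mul_lt_one_of_lt_of_le hV (hy V hV)

theorem Non2.not_unit {x : ℂ} (h : Non2 x) : ¬ Unit2 x := by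
  intro hu
  obtain ⟨V, hV⟩ := exists_val
  exact absurd (h V hV) (by rw [hu V hV]; exact lt_irrefl _)

theorem Non2.conj {x : ℂ} (h : Non2 x) : Non2 ((starRingEnd ℂ) x) := by
  intro A hA
  have h2 : (2 : ℂ) ≠ 0 := two_ne_zero
  by_cases hx : x = 0
  · rw [hx, map_zero, map_zero]
    exact zero_lt_one
  set B : ValuationSubring ℂ := A.comap (starRingEnd ℂ) with hB
  have hmem : ∀ z : ℂ, z ∈ B ↔ (starRingEnd ℂ) z ∈ A := fun z => Iff.rfl
  have hB2 : B.valuation 2 < 1 := by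
    rw [B9_lt B h2, hmem, map_inv₀, map_ofNat, ← B9_lt A h2]
    exact hA
  have h3 := (B9_lt B hx).1 (h B hB2)
  rw [hmem, map_inv₀] at h3
  exact (B9_lt A ((map_ne_zero (starRingEnd ℂ)).2 hx)).2 h3

theorem Int2.conj {x : ℂ} (h : Int2 x) : Int2 ((starRingEnd ℂ) x) := by
  intro A hA
  have h2 : (2 : ℂ) ≠ 0 := two_ne_zero
  set B : ValuationSubring ℂ := A.comap (starRingEnd ℂ) with hB
  have hmem : ∀ z : ℂ, z ∈ B ↔ (starRingEnd ℂ) z ∈ A := fun z => Iff.rfl
  have hB2 : B.valuation 2 < 1 := by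
    rw [B9_lt B h2, hmem, map_inv₀, map_ofNat, ← B9_lt A h2]
    exact hA
  have h3 := (ValuationSubring.valuation_le_one_iff B x).1 (h B hB2)
  exact (ValuationSubring.valuation_le_one_iff A _).2 ((hmem x).1 h3)

/-- An integral number modulo 2 times a unit plus 2 times an integral number. -/
theorem Unit2.cong {x y : ℂ} (hx : Unit2 x) (hy : Int2 y) : Unit2 (x + 2 * y) := Unit2_add hx hy

variable {K : Type} [Field K] [NumberField K] [Algebra F K]

theorem tm_eq (w : HeightOneSpectrum (𝓞 K)) (v : HeightOneSpectrum O)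
    (hv : v.asIdeal = w.asIdeal.under O) (h2 : (2 : O) ∉ v.asIdeal) (h3 : (3 : O) ∉ v.asIdeal) :
    tm (Psi K) 1 w.asIdeal = (e (gen v) ^ w.asIdeal.inertiaDeg O)⁻¹ := by
  have hx1 : Unit2 (e (gen v)) := fun A hA => val_e_odd A hA _ (B9_odd v h3 h2)
  have hx0 := hx1.ne_zero
  have hcx0 := hx1.conj.ne_zero
  unfold tm
  rw [Psi_prime w v hv, psiF_prime v h3, absNorm_inertia K w v hv, Nat.cast_pow,
    ← gen_mul_conj v h3, Complex.cpow_neg_one, mul_pow]
  field_simp

theorem tm_three (w : HeightOneSpectrum (𝓞 K)) (h3 : (3 : 𝓞 K) ∈ w.asIdeal) :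
    tm (Psi K) 1 w.asIdeal = 0 := by
  unfold tm
  rw [H7_three w h3, zero_mul]

theorem not_two_under (w : HeightOneSpectrum (𝓞 K)) (h2 : (2 : 𝓞 K) ∉ w.asIdeal) :
    (2 : O) ∉ (I2_under w).asIdeal := by
  intro h
  apply h2
  have h1 : algebraMap O (𝓞 K) 2 ∈ w.asIdeal := h
  rwa [map_ofNat] at h1

theorem not_three_under (w : HeightOneSpectrum (𝓞 K)) (h3 : (3 : 𝓞 K) ∉ w.asIdeal) :
    (3 : O) ∉ (I2_under w).asIdeal := by
  intro h
  apply h3
  have h1 : algebraMap O (𝓞 K) 3 ∈ w.asIdeal := h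
  rwa [map_ofNat] at h1

/-- The Euler factors at primes not above 2 are integral. -/
theorem Efac_int (w : HeightOneSpectrum (𝓞 K)) (h2 : (2 : 𝓞 K) ∉ w.asIdeal) :
    Int2 (1 - tm (Psi K) 1 w.asIdeal) := by
  by_cases h3 : (3 : 𝓞 K) ∈ w.asIdeal
  · rw [tm_three w h3, sub_zero]
    exact Int2.one
  · have h2v := not_two_under w h2
    have h3v := not_three_under w h3
    rw [tm_eq w (I2_under w) rfl h2v h3v]
    have hx1 : Unit2 (e (gen (I2_under w))) := fun A hA => val_e_odd A hA _ (B9_odd _ h3v h2v)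
    rw [sub_eq_add_neg]
    exact Int2.one.add (Int2_of_unit (hx1.pow _).inv).neg

/-- The Euler factors at primes modulo which 2 is a cube are not units. -/
theorem Efac_non (w : HeightOneSpectrum (𝓞 K)) (v : HeightOneSpectrum O)
    (hv : v.asIdeal = w.asIdeal.under O) (h2 : (2 : O) ∉ v.asIdeal) (h3 : (3 : O) ∉ v.asIdeal)
    (x : O) (hx : x ^ 3 - 2 ∈ v.asIdeal) : Non2 (1 - tm (Psi K) 1 w.asIdeal) := by
  obtain ⟨z, hz⟩ := even_norm v h3 h2 x hx
  have hx1 : Unit2 (e (gen v)) := fun A hA => val_e_odd A hA _ (B9_odd v h3 h2)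
  have hn1 : Non2 (e (gen v) - 1) := by
    have h4 := congrArg e hz
    rw [map_sub, map_one, map_mul, map_ofNat] at h4
    rw [h4]
    exact Non2_two (fun V _ => val_e_le V z)
  have hn : ∀ n : ℕ, Non2 (e (gen v) ^ n - 1) := by
    intro n
    induction n with
    | zero =>
      rw [pow_zero, sub_self]
      intro V _
      rw [map_zero]
      exact zero_lt_one
    | succ n ih =>
      have h5 : e (gen v) ^ (n + 1) - 1 = (e (gen v) - 1) * e (gen v) ^ n + (e (gen v) ^ n - 1) := by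
        ring
      rw [h5]
      exact (hn1.mul_int (Int2_of_unit (hx1.pow n))).add ih
  have hu := hx1.pow (w.asIdeal.inertiaDeg O)
  have hu0 := hu.ne_zero
  rw [tm_eq w v hv h2 h3]
  have h6 : 1 - (e (gen v) ^ w.asIdeal.inertiaDeg O)⁻¹ =
      (e (gen v) ^ w.asIdeal.inertiaDeg O - 1) * (e (gen v) ^ w.asIdeal.inertiaDeg O)⁻¹ := by
    field_simp
  rw [h6]
  exact (hn _).mul_int (Int2_of_unit hu.inv)

end H19Y
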