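import Mathlib
import Pool.Agent.Lib.H19Y.Y0
import Pool.Agent.Lib.H55N.RQFin

/-! The quadratic character of a quadratic extension unramified above 6 (RQ27, RQFin of H55N). -/

open NumberField IsDedekindDomain

namespace H19Y

open H55B H55C H55N H19X

/-- Ramified primes do not divide 6. -/
theorem six_not_ram {K K' : Type} [Field K] [NumberField K] [Algebra F K] [Field K'] [NumberField K']
    [Algebra F K'] [Algebra K K'] [IsScalarTower F K K'] (hU : UnrSix K') (w : HeightOneSpectrum (𝓞 K))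
    (h : RQ.RamI K' w.asIdeal) : (6 : 𝓞 K) ∉ w.asIdeal := by
  intro h6
  obtain ⟨W, hW, hWm⟩ := h
  have hmap0 : w.asIdeal.map (algebraMap (𝓞 K) (𝓞 K')) ≠ ⊥ := by
    intro h
    rw [Ideal.map_eq_bot_iff_of_injective
      (FaithfulSMul.algebraMap_injective (𝓞 K) (𝓞 K'))] at h
    exact w.ne_bot h
  have hW0 : W ≠ ⊥ := by
    rintro rfl
    apply hmap0
    rw [hWm]
    exact zero_pow two_ne_zero
  have hunder : W.under (𝓞 K) = w.asIdeal := by
    symm
    apply w.isMaximal.eq_of_le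
    · have := Ideal.IsPrime.under (𝓞 K) W
      exact this.ne_top
    · apply Ideal.map_le_iff_le_comap.1
      rw [hWm]
      exact Ideal.pow_le_self two_ne_zero
  have hlies : W.LiesOver w.asIdeal := ⟨hunder.symm⟩
  have h6W : (6 : 𝓞 K') ∈ W := by
    have h1 : (6 : 𝓞 K) ∈ W.under (𝓞 K) := by rw [hunder]; exact h6
    rw [Ideal.under_def, Ideal.mem_comap, map_ofNat] at h1
    exact h1
  have h1 := hU ⟨W, hW, hW0⟩ h6W
  have h2 := Ideal.ramificationIdx_tower (R := O) w.asIdeal W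
  have h1' : W.ramificationIdx O = 1 := h1
  rw [h1'] at h2
  have h3 : W.ramificationIdx (𝓞 K) = 1 := Nat.eq_one_of_mul_eq_one_left h2.symm
  have h4 : w.asIdeal.ramificationIdx' W = 2 := by
    apply Ideal.ramificationIdx'_spec
    · rw [hWm]
    · rw [hWm]
      intro h5
      have h6 := Ideal.pow_right_strictAnti W hW0 hW.ne_top (Nat.lt_succ_self 2)
      exact absurd h5 (not_le_of_gt h6)
  rw [Ideal.ramificationIdx'_eq_ramificationIdx w.asIdeal W w.ne_bot, h3] at h4
  norm_num at h4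

theorem ram_of_e {K K' : Type} [Field K] [NumberField K] [Field K'] [NumberField K']
    [Algebra K K'] (h2 : Module.finrank K K' = 2) (w : HeightOneSpectrum (𝓞 K))
    (W : HeightOneSpectrum (𝓞 K')) (hW : w.asIdeal = W.asIdeal.under (𝓞 K))
    (he : W.asIdeal.ramificationIdx (𝓞 K) ≠ 1) : RQ.RamI K' w.asIdeal := by
  have hl : W.asIdeal.LiesOver w.asIdeal := ⟨hW⟩
  have hmap0 : w.asIdeal.map (algebraMap (𝓞 K) (𝓞 K')) ≠ ⊥ := by
    intro h
    rw [Ideal.map_eq_bot_iff_of_injective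
      (FaithfulSMul.algebraMap_injective (𝓞 K) (𝓞 K'))] at h
    exact w.ne_bot h
  have h0 : w.asIdeal.ramificationIdx' W.asIdeal ≠ 0 :=
    Ideal.IsDedekindDomain.ramificationIdx'_ne_zero_of_liesOver _ w.ne_bot
  have h1 := Ideal.ramificationIdx'_eq_ramificationIdx w.asIdeal W.asIdeal w.ne_bot
  have h3 : 2 ≤ w.asIdeal.ramificationIdx' W.asIdeal := by
    rw [h1] at h0 ⊢
    omega
  have h4 : w.asIdeal.map (algebraMap (𝓞 K) (𝓞 K')) ≤ W.asIdeal ^ 2 :=
    Ideal.le_pow_ramificationIdx'.trans (Ideal.pow_le_pow_right h3)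
  obtain ⟨J, hJ⟩ := Ideal.dvd_iff_le.2 h4
  refine ⟨W.asIdeal, W.isPrime, ?_⟩
  obtain ⟨J', hJ'⟩ := RQ.RQ26_dvd w.asIdeal W.asIdeal hW.symm
  have h5 := RQ.RQ26_map (K' := K') h2 w.asIdeal
  have h5' := h5
  rw [hJ, map_mul, map_pow, hJ'] at h5
  have hw2 : w.asIdeal ^ 2 ≠ 0 := pow_ne_zero 2 w.ne_bot
  have h6 : J' ^ 2 * Ideal.relNorm (𝓞 K) J = 1 := by
    apply mul_left_cancel₀ hw2
    rw [mul_one]
    nth_rewrite 2 [← h5]
    ring
  have h7 : Ideal.relNorm (𝓞 K) J = 1 := by
    rw [Ideal.one_eq_top, ← Ideal.isUnit_iff]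
    exact IsUnit.of_mul_eq_one _ ((mul_comm _ _).trans h6)
  have h8 : Ideal.absNorm J = 1 := by
    have h9 := Ideal.absNorm_relNorm (𝓞 K) (𝓞 K') J
    rw [h7, map_one] at h9
    exact h9.symm
  rw [Ideal.absNorm_eq_one_iff] at h8
  rw [hJ, h8, Ideal.mul_top]

open Classical UniqueFactorizationMonoid in
theorem exists_chr6 (K K' : Type) [Field K] [NumberField K] [Algebra F K] [Field K'] [NumberField K']
    [Algebra F K'] [Algebra K K'] [IsScalarTower F K K'] (h2 : Module.finrank K K' = 2)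
    (hU : UnrSix K') :
    ∃ (f : Ideal (𝓞 K)) (χ : Ideal (𝓞 K) →*₀ ℂ), QChr6 f χ ∧ SplitChr K K' χ ∧
      ∀ w : HeightOneSpectrum (𝓞 K), RQ.RamI K' w.asIdeal ↔ f ≤ w.asIdeal := by
  have hF : ∃ j : K, j ^ 2 = -3 := by
    refine ⟨algebraMap F K (2 * ((om : O) : F) + 1), ?_⟩
    rw [← map_pow]
    have h : ((2 * ((om : O) : F) + 1) ^ 2 : F) = -3 := by
      have h1 : (((om : O) : F) ^ 2 + ((om : O) : F) + 1) = 0 := by
        have := congrArg (algebraMap O F) om_rel
        simpa using this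
      linear_combination 4 * h1
    rw [h, map_neg, map_ofNat]
  obtain ⟨R, hR⟩ : ∃ R : Finset (Ideal (𝓞 K)), ∀ w, w ∈ R ↔ (w.IsMaximal ∧ RQ.RamI K' w) := by
    have h := RQ.ram_finite (K := K) (K' := K') h2
    exact ⟨h.toFinset, fun w => by simp⟩
  have hmax : ∀ w ∈ R, w.IsMaximal := fun w hw => ((hR w).1 hw).1
  have hne : ∀ w ∈ R, w ≠ ⊥ := by
    rintro w hw rfl
    have := hmax _ hw
    exact Ring.ne_bot_of_isMaximal_of_not_isField this (RingOfIntegers.not_isField K) rfl
  have hodd : ∀ w ∈ R, (2 : 𝓞 K) ∉ w := by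
    intro w hw h
    let w' : HeightOneSpectrum (𝓞 K) := ⟨w, (hmax w hw).isPrime, hne w hw⟩
    exact six_not_ram hU w' ((hR _).1 hw).2 (six_of_two w' h)
  have hrec := RQ.recip hF h2 R hR hodd
  let f : Ideal (𝓞 K) := ∏ w ∈ R, w
  have hcop : ∀ a : Ideal (𝓞 K), IsCoprime a f ↔ ∀ w ∈ R, ¬ a ≤ w := by
    intro a
    rw [IsCoprime.prod_right_iff]
    constructor
    · intro h w hw hle
      have := h w hw
      rw [Ideal.isCoprime_iff_sup_eq, sup_eq_right.2 hle] at this
      exact (hmax w hw).ne_top this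
    · intro h w hw
      rw [Ideal.isCoprime_iff_sup_eq]
      by_contra hc
      have := (hmax w hw).eq_of_le hc le_sup_right
      exact h w hw (this ▸ le_sup_left)
  have hmemf : ∀ x : 𝓞 K, x ∈ f → ∀ w ∈ R, x ∈ w := by
    intro x hx w hw
    exact (Ideal.prod_le_inf.trans (Finset.inf_le hw)) hx
  have hchi0 : ∀ w ∈ R, RQ.chiK K' w = 0 := by
    intro w hw
    unfold RQ.chiK
    rw [if_pos ((hR w).1 hw).2]
  have hchi1 : ∀ w : Ideal (𝓞 K), w.IsMaximal → w ∉ R → RQ.chiK K' w = 1 ∨ RQ.chiK K' w = -1 := by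
    intro w hw hwR
    unfold RQ.chiK
    rw [if_neg fun h => hwR ((hR w).2 ⟨hw, h⟩)]
    split_ifs
    · right; rfl
    · left; rfl
  have hmaxf : ∀ {a w : Ideal (𝓞 K)}, a ≠ 0 → w ∈ normalizedFactors a → w.IsMaximal := by
    intro a w ha hw
    have hp := prime_of_normalized_factor w hw
    exact (Ideal.isPrime_of_prime hp).isMaximal hp.ne_zero
  refine ⟨f, chiH K', ?_, RQ.split_law h2 _ fun w => chiH_prime K' w, ?_⟩
  swap
  · intro w
    constructor
    · intro hw
      exact Ideal.prod_le_inf.trans (Finset.inf_le ((hR w.asIdeal).2 ⟨w.isMaximal, hw⟩))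
    · intro hw
      have h1 : ¬ IsCoprime w.asIdeal f := by
        rw [Ideal.isCoprime_iff_sup_eq, sup_eq_left.2 hw]
        exact w.isPrime.ne_top
      rw [hcop] at h1
      push Not at h1
      obtain ⟨w1, hw1, hle⟩ := h1
      have : w.asIdeal = w1 := w.isMaximal.eq_of_le (hmax w1 hw1).ne_top hle
      rw [this]
      exact ((hR w1).1 hw1).2
  refine ⟨?_, ?_, ?_, ?_, ?_⟩
  · exact Finset.prod_ne_zero_iff.2 hne
  · refine (hcop (Ideal.span {2})).2 ?_ |>.symm
    intro w hw hle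
    exact hodd w hw ((Ideal.span_singleton_le_iff_mem _).1 hle)
  · intro a ha hco
    rw [chiH_apply K' ha]
    rw [hcop] at hco
    have h1 : ∀ w ∈ normalizedFactors a, RQ.chiK K' w = 1 ∨ RQ.chiK K' w = -1 := by
      intro w hw
      apply hchi1 w (hmaxf ha hw)
      intro hwR
      exact hco w hwR (Ideal.le_of_dvd (dvd_of_mem_normalizedFactors hw))
    generalize normalizedFactors a = s at h1
    induction s using Multiset.induction_on with
    | empty => left; simp
    | cons w s ih =>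
      rw [Multiset.map_cons, Multiset.prod_cons]
      have h2 := h1 w (Multiset.mem_cons_self _ _)
      rcases ih fun w' hw' => h1 w' (Multiset.mem_cons_of_mem hw') with h3 | h3 <;>
      rcases h2 with h2 | h2 <;> rw [h2, h3] <;> simp
  · intro a hco
    by_cases ha : a = 0
    · rw [ha, map_zero]
    rw [hcop] at hco
    push Not at hco
    obtain ⟨w, hw, hle⟩ := hco
    rw [chiH_apply K' ha]
    apply Multiset.prod_eq_zero
    rw [Multiset.mem_map]
    refine ⟨w, ?_, by rw [hchi0 w hw, Int.cast_zero]⟩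
    have hwp : Prime w := Ideal.prime_of_isPrime (hne w hw) (hmax w hw).isPrime
    rw [mem_normalizedFactors_iff ha]
    exact ⟨hwp, Ideal.dvd_iff_le.2 hle⟩
  · intro x y hx hy hco hxy
    have hx0 : (Ideal.span {x} : Ideal (𝓞 K)) ≠ 0 := by
      rw [Ne, Ideal.zero_eq_bot, Ideal.span_singleton_eq_bot]; exact hx
    have hy0 : (Ideal.span {y} : Ideal (𝓞 K)) ≠ 0 := by
      rw [Ne, Ideal.zero_eq_bot, Ideal.span_singleton_eq_bot]; exact hy
    rw [hcop] at hco
    have hxw : ∀ w ∈ R, x ∉ w := fun w hw h => hco w hw (by rwa [Ideal.span_singleton_le_iff_mem])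
    have hyw : ∀ w ∈ R, y ∉ w := fun w hw h => hxw w hw (by
      have := hmemf _ hxy w hw
      have h3 := w.add_mem this h
      rwa [sub_add_cancel] at h3)
    have hcast : ∀ a : Ideal (𝓞 K), a ≠ 0 → chiH K' a =
        ((((normalizedFactors a).map (RQ.chiK K')).prod : ℤ) : ℂ) := by
      intro a ha
      rw [chiH_apply K' ha]
      change _ = Int.castRingHom ℂ _
      rw [map_multiset_prod, Multiset.map_map]
      rfl
    rw [hcast _ hx0, hcast _ hy0, hrec x hx hxw, hrec y hy hyw]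
    congr 1
    apply Finset.prod_congr rfl
    intro w hw
    unfold RQ.qs
    have h4 := hmemf _ hxy w hw
    congr 1
    apply propext
    constructor
    · rintro ⟨t, ht⟩
      refine ⟨t, ?_⟩
      have := w.sub_mem ht h4
      have h5 : x - t ^ 2 - (x - y) = y - t ^ 2 := by ring
      rwa [h5] at this
    · rintro ⟨t, ht⟩
      refine ⟨t, ?_⟩
      have := w.add_mem ht h4
      have h5 : y - t ^ 2 + (x - y) = x - t ^ 2 := by ring
      rwa [h5] at this

end H19Y
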