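import Mathlib
import Pool.Agent.Lib.H19Y.Y0
import Pool.Agent.Lib.H55E.T1

/-! Cubes modulo primes, Tamagawa numbers outside 3 (T1 of H55E for fields unramified above 6). -/

open NumberField IsDedekindDomain

namespace H19Y

open H55B H55C H55E H55N H19X

variable {K₀ : Type} [Field K₀] [NumberField K₀]

/-- 2 is not a cube modulo primes of K above primes modulo which it is not a cube -/
theorem nocube6 (K : Type) [Field K] [NumberField K] [Algebra F K] (hS : Sub6 K)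
    (W : HeightOneSpectrum (𝓞 K)) (hno : ¬ ∃ x : O, x ^ 3 - 2 ∈ W.asIdeal.under O) (u : 𝓞 K)
    (hu : u ^ 3 - 2 ∈ W.asIdeal) : False := by
  obtain ⟨j, hj⟩ := Sub6.inertia hS W
  have hp : (W.asIdeal.under O).IsPrime := inferInstance
  have hl : W.asIdeal.LiesOver (W.asIdeal.under O) := ⟨rfl⟩
  have hne : W.asIdeal.under O ≠ ⊥ := by
    intro h
    have h1 := Ideal.eq_bot_of_comap_eq_bot (R := O) (I := W.asIdeal) h
    exact W.ne_bot h1
  have hmax : (W.asIdeal.under O).IsMaximal := hp.isMaximal hne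
  have hWm := W.isMaximal
  rw [Ideal.inertiaDeg_eq_of_isMaximal (W.asIdeal.under O) W.asIdeal] at hj
  let : Field (O ⧸ W.asIdeal.under O) := Ideal.Quotient.field _
  let : Field (𝓞 K ⧸ W.asIdeal) := Ideal.Quotient.field _
  have hirr : Irreducible (Polynomial.X ^ 3 - Polynomial.C (2 : O ⧸ W.asIdeal.under O)) := by
    refine X_pow_sub_C_irreducible_of_prime Nat.prime_three ?_
    intro b hb
    obtain ⟨x, rfl⟩ := Ideal.Quotient.mk_surjective b
    apply hno
    refine ⟨x, ?_⟩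
    rw [← Ideal.Quotient.eq_zero_iff_mem, map_sub, map_pow, hb, map_ofNat, sub_self]
  have hroot : Polynomial.aeval (Ideal.Quotient.mk W.asIdeal u)
      (Polynomial.X ^ 3 - Polynomial.C (2 : O ⧸ W.asIdeal.under O)) = 0 := by
    rw [map_sub, map_pow, Polynomial.aeval_X, Polynomial.aeval_C, map_ofNat]
    have h1 := Ideal.Quotient.eq_zero_iff_mem.2 hu
    rw [map_sub, map_pow, map_ofNat] at h1
    exact h1
  have hmin := minpoly.eq_of_irreducible_of_monic hirr hroot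
    (Polynomial.monic_X_pow_sub_C _ three_ne_zero)
  have hfin : FiniteDimensional (O ⧸ W.asIdeal.under O) (𝓞 K ⧸ W.asIdeal) := by
    apply FiniteDimensional.of_finrank_pos
    rw [hj]
    positivity
  have hdvd : (minpoly (O ⧸ W.asIdeal.under O) (Ideal.Quotient.mk W.asIdeal u)).natDegree ∣
      Module.finrank (O ⧸ W.asIdeal.under O) (𝓞 K ⧸ W.asIdeal) :=
    minpoly.degree_dvd (IsIntegral.of_finite _ _)
  rw [← hmin, Polynomial.natDegree_X_pow_sub_C, hj] at hdvd
  have h3 := Nat.prime_three.dvd_of_dvd_pow hdvd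
  omega

theorem cube6 (K : Type) [Field K] [NumberField K] [Algebra F K] [Algebra K₀ K] (hS : Sub6 K)
    (d : ℤ) (hd : AdmD d) (w : HeightOneSpectrum (𝓞 K₀)) (hdw : (d : 𝓞 K₀) ∈ w.asIdeal)
    (u : 𝓞 K₀) (hu : u ^ 3 - 2 ∈ w.asIdeal) : False := by
  obtain ⟨Q, hQ, hQl⟩ := Ideal.exists_maximal_ideal_liesOver_of_isIntegral (S := 𝓞 K) w.asIdeal
  have hunder : w.asIdeal = Q.under (𝓞 K₀) := hQl.over
  have hQ0 : Q ≠ ⊥ := by
    rintro rfl
    apply w.ne_bot
    rw [hunder]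
    exact Ideal.under_bot (𝓞 K₀) (𝓞 K)
  obtain ⟨W, hW⟩ : ∃ W : HeightOneSpectrum (𝓞 K), W.asIdeal = Q := ⟨⟨Q, hQ.isPrime, hQ0⟩, rfl⟩
  rw [← hW] at hunder
  have hwp := w.isPrime
  have hn : (d.natAbs : 𝓞 K₀) ∈ w.asIdeal := by
    rw [← Int.cast_natCast]
    rcases Int.natAbs_eq d with h | h
    · have h' : ((d.natAbs : ℤ) : 𝓞 K₀) = (d : 𝓞 K₀) := congrArg (Int.cast) h.symm
      rw [h']
      exact hdw
    · have h' : ((d.natAbs : ℤ) : 𝓞 K₀) = -(d : 𝓞 K₀) := by
        rw [← Int.cast_neg]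
        exact congrArg (Int.cast) (by omega)
      rw [h']
      exact w.asIdeal.neg_mem hdw
  obtain ⟨l, hl, hld, hlw⟩ := ET1_prime w.asIdeal d.natAbs (Int.natAbs_ne_zero.2 hd.ne_zero) hn
  have hlW : (l : 𝓞 K) ∈ W.asIdeal := by
    have h1 : (l : 𝓞 K₀) ∈ W.asIdeal.under (𝓞 K₀) := hunder ▸ hlw
    rw [Ideal.mem_under] at h1
    rwa [map_natCast] at h1
  have hlv : (l : O) ∈ W.asIdeal.under O := by
    rw [Ideal.mem_under, map_natCast]
    exact hlW
  have hp : (W.asIdeal.under O).IsPrime := inferInstance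
  have hne : W.asIdeal.under O ≠ ⊥ := by
    intro h
    have h1 := Ideal.eq_bot_of_comap_eq_bot (R := O) (I := W.asIdeal) h
    exact W.ne_bot h1
  obtain ⟨hg1, hg2⟩ := hd.good l hl (Int.natCast_dvd.2 hld)
  have hgood := H55D.X3_good ⟨W.asIdeal.under O, hp, hne⟩ l hl hlv hg1 hg2
  refine nocube6 K hS W hgood.2.2 (algebraMap (𝓞 K₀) (𝓞 K) u) ?_
  have h1 : u ^ 3 - 2 ∈ W.asIdeal.under (𝓞 K₀) := hunder ▸ hu
  rw [Ideal.mem_under, map_sub, map_pow, map_ofNat] at h1
  exact h1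

theorem E0_6 (K : Type) [Field K] [NumberField K] [Algebra F K] [Algebra K₀ K] (hS : Sub6 K)
    (d : ℤ) (hd : AdmD d) (hA : UnrAt d K₀) (w : HeightOneSpectrum (𝓞 K₀))
    (h3 : (3 : 𝓞 K₀) ∉ w.asIdeal) (x y : w.adicCompletion K₀)
    (hE : (2 * y + 1) ^ 2 = 4 * x ^ 3 + (d : w.adicCompletion K₀) ^ 3) :
    1 ≤ Valued.v (3 * x ^ 2) ∨ 1 ≤ Valued.v (2 * y + 1) := by
  by_contra hno
  push Not at hno
  obtain ⟨h1, h2⟩ := hno
  have hv3 := W10_v3 K₀ w h3
  rw [map_mul, hv3, one_mul, map_pow] at h1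
  have hx : Valued.v x < 1 := by
    by_contra hc
    exact absurd h1 (not_lt.mpr (one_le_pow₀ (not_lt.mp hc)))
  set v : Valuation (w.adicCompletion K₀) (WithZero (Multiplicative ℤ)) := Valued.v with hv
  have hv2 : v 2 ≤ 1 := by
    have e : (2 : w.adicCompletion K₀) = 1 + 1 := by norm_num
    rw [e]
    exact (v.map_add _ _).trans (by rw [map_one, max_self])
  have hv4 : v 4 ≤ 1 := by
    have e : (4 : w.adicCompletion K₀) = 2 * 2 := by norm_num
    rw [e, map_mul]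
    exact mul_le_one' hv2 hv2
  have hint : ∀ a : K₀, v (algebraMap K₀ (w.adicCompletion K₀) a) = w.valuation K₀ a := fun a =>
    HeightOneSpectrum.valuedAdicCompletion_eq_valuation' w a
  have hdd : v (d : w.adicCompletion K₀) = w.valuation K₀ (d : K₀) := by
    rw [← hint, map_intCast (algebraMap K₀ (w.adicCompletion K₀))]
  -- d is in w
  have hd3 : v (d : w.adicCompletion K₀) ^ 3 < 1 := by
    rw [← map_pow]
    have e : (d : w.adicCompletion K₀) ^ 3 = (2 * y + 1) ^ 2 - 4 * x ^ 3 := by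
      linear_combination -hE
    rw [e]
    refine lt_of_le_of_lt (Valuation.map_sub _ _ _) (max_lt ?_ ?_)
    · rw [map_pow]
      exact pow_lt_one₀ zero_le h2 two_ne_zero
    · rw [map_mul, map_pow]
      exact lt_of_le_of_lt (mul_le_of_le_one_left' hv4) (pow_lt_one₀ zero_le hx three_ne_zero)
  have hd1 : v (d : w.adicCompletion K₀) < 1 := by
    by_contra hc
    exact absurd hd3 (not_lt.2 (one_le_pow₀ (not_lt.1 hc)))
  have hdw : (d : 𝓞 K₀) ∈ w.asIdeal := by
    rw [← HeightOneSpectrum.valuation_lt_one_iff_mem w (K := K₀)]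
    change w.valuation K₀ (algebraMap (𝓞 K₀) K₀ (d : 𝓞 K₀)) < 1
    rw [map_intCast (algebraMap (𝓞 K₀) K₀), ← hdd]
    exact hd1
  have hvd : v (d : w.adicCompletion K₀) = WithZero.exp (-1 : ℤ) := by
    rw [hdd]
    exact val_d K₀ d hd hA w hdw
  have hd0 : (d : w.adicCompletion K₀) ≠ 0 := by
    intro h
    rw [h, map_zero] at hvd
    exact WithZero.exp_ne_zero hvd.symm
  have hvx : v x ≤ WithZero.exp (-1 : ℤ) := by
    by_cases h0 : v x = 0
    · rw [h0]; exact zero_le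
    · rw [← WithZero.exp_log h0] at hx ⊢
      rw [← WithZero.exp_zero, WithZero.exp_lt_exp] at hx
      rw [WithZero.exp_le_exp]
      omega
  obtain ⟨z, hz⟩ : ∃ z, z = x / (d : w.adicCompletion K₀) := ⟨_, rfl⟩
  have hxz : x = d * z := by
    rw [hz]
    field_simp
  have hvz : v z ≤ 1 := by
    rw [hz, map_div₀, hvd]
    exact (div_le_one₀ (zero_lt_iff.2 WithZero.exp_ne_zero)).2 hvx
  have hY : v (2 * y + 1) ^ 2 = WithZero.exp (-3 : ℤ) * v (4 * z ^ 3 + 1) := by
    rw [← map_pow, hE, hxz]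
    have e : 4 * ((d : w.adicCompletion K₀) * z) ^ 3 + (d : w.adicCompletion K₀) ^ 3 =
        (d : w.adicCompletion K₀) ^ 3 * (4 * z ^ 3 + 1) := by ring
    rw [e, map_mul, map_pow, hvd, ← WithZero.exp_nsmul]
    congr 2
  have hc1 : v (4 * z ^ 3 + 1) < 1 := by
    have hle : v (4 * z ^ 3 + 1) ≤ 1 := by
      refine (v.map_add _ _).trans (max_le ?_ (by rw [map_one]))
      rw [map_mul, map_pow]
      exact mul_le_one' hv4 (pow_le_one₀ zero_le hvz)
    refine lt_of_le_of_ne hle fun heq => ?_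
    rw [heq, mul_one] at hY
    have h0 : v (2 * y + 1) ≠ 0 := by
      intro h0
      rw [h0, zero_pow two_ne_zero] at hY
      exact WithZero.exp_ne_zero hY.symm
    rw [← WithZero.exp_log h0, ← WithZero.exp_nsmul, WithZero.exp_inj] at hY
    simp only [nsmul_eq_mul] at hY
    push_cast at hY
    omega
  -- a cube root of 2 modulo w
  have hvz2 : v (-(2 * z)) ≤ 1 := by
    rw [Valuation.map_neg, map_mul]
    exact mul_le_one' hv2 hvz
  obtain ⟨u, hu⟩ := ET1_approx w (-(2 * z)) hvz2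
  have hu' : v (algebraMap K₀ (w.adicCompletion K₀) (u : K₀) + 2 * z) < 1 := by
    have e : algebraMap K₀ (w.adicCompletion K₀) (u : K₀) + 2 * z =
      ((u : K₀) : w.adicCompletion K₀) - -(2 * z) := by
      rw [sub_neg_eq_add]
      rfl
    rw [e]
    exact hu
  obtain ⟨U, hU⟩ : ∃ U, U = algebraMap K₀ (w.adicCompletion K₀) (u : K₀) := ⟨_, rfl⟩
  rw [← hU] at hu'
  have hvU : v U ≤ 1 := by
    rw [hU, hint]
    exact w.valuation_le_one u
  refine cube6 K hS d hd w hdw u ?_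
  rw [← HeightOneSpectrum.valuation_lt_one_iff_mem w (K := K₀), ← hint]
  change v (algebraMap K₀ (w.adicCompletion K₀) (algebraMap (𝓞 K₀) K₀ (u ^ 3 - 2))) < 1
  rw [map_sub (algebraMap (𝓞 K₀) K₀), map_sub (algebraMap K₀ (w.adicCompletion K₀)),
    map_pow (algebraMap (𝓞 K₀) K₀), map_pow (algebraMap K₀ (w.adicCompletion K₀)),
    map_ofNat (algebraMap (𝓞 K₀) K₀), map_ofNat (algebraMap K₀ (w.adicCompletion K₀))]
  change v (algebraMap K₀ (w.adicCompletion K₀) (u : K₀) ^ 3 - 2) < 1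
  rw [← hU]
  have e : U ^ 3 - 2 = (U + 2 * z) * (U ^ 2 + (-(2 * U * z) + 4 * z ^ 2)) - 2 * (4 * z ^ 3 + 1) := by
    ring
  rw [e]
  refine lt_of_le_of_lt (Valuation.map_sub _ _ _) (max_lt ?_ ?_)
  · rw [map_mul]
    refine lt_of_le_of_lt (mul_le_of_le_one_right' ?_) hu'
    refine (v.map_add _ _).trans (max_le ?_ ((v.map_add _ _).trans (max_le ?_ ?_)))
    · rw [map_pow]
      exact pow_le_one₀ zero_le hvU
    · rw [Valuation.map_neg, map_mul, map_mul]
      exact mul_le_one' (mul_le_one' hv2 hvU) hvz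
    · rw [map_mul, map_pow]
      exact mul_le_one' hv4 (pow_le_one₀ zero_le hvz)
  · rw [map_mul]
    exact lt_of_le_of_lt (mul_le_of_le_one_left' hv2) hc1

theorem tamd_one6 (K : Type) [Field K] [NumberField K] [Algebra F K] [Algebra K₀ K] (hS : Sub6 K)
    (d : ℤ) (hd : AdmD d) (hA : UnrAt d K₀) (w : HeightOneSpectrum (𝓞 K₀))
    (h3 : (3 : 𝓞 K₀) ∉ w.asIdeal) : tamd d K₀ w = 1 := by
  classical
  have huniv : E0d d K₀ w = Set.univ := by
    rw [Set.eq_univ_iff_forall]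
    intro P
    rcases P with _ | ⟨x, y, hP⟩
    · left
      rfl
    · right
      exact ⟨x, y, hP, rfl, E0_6 K hS d hd hA w h3 x y
        (ET1_eqn (w.adicCompletion K₀) d x y hP)⟩
  unfold tamd
  rw [huniv, AddSubgroup.closure_univ, AddSubgroup.index_top]

/-- If 2 is a cube modulo a prime of K then it is a cube modulo the prime of F below it. -/
theorem cube_base {K : Type} [Field K] [NumberField K] [Algebra F K] (hS : Sub6 K)
    (w : HeightOneSpectrum (𝓞 K)) (y : 𝓞 K) (hy : y ^ 3 - 2 ∈ w.asIdeal) :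
    ∃ z : O, z ^ 3 - 2 ∈ w.asIdeal.under O := by
  by_contra h
  exact nocube6 K hS w h y hy

theorem exists_under {K K' : Type} [Field K] [NumberField K] [Field K'] [NumberField K']
    [Algebra K K'] (W : HeightOneSpectrum (𝓞 K')) :
    ∃ w : HeightOneSpectrum (𝓞 K), w.asIdeal = W.asIdeal.under (𝓞 K) := by
  have hp : (W.asIdeal.under (𝓞 K)).IsPrime := inferInstance
  have hne : W.asIdeal.under (𝓞 K) ≠ ⊥ := by
    intro h
    have h1 := Ideal.eq_bot_of_comap_eq_bot (R := 𝓞 K) (I := W.asIdeal) h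
    exact W.ne_bot h1
  exact ⟨⟨_, hp, hne⟩, rfl⟩

end H19Y
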