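import Mathlib
import Pool.Agent.Lib.H19Y.Y2
import Pool.Agent.Lib.H55E.L7
import Pool.Agent.Lib.H55E.Q5

/-! The L-function of E_d over fields unramified above 6 (L5, L6, L7, Q2, Q3, Q4, Q5 of H55E). -/

open NumberField IsDedekindDomain

namespace H19Y

open H55B H55C H55E H55N H19X

theorem LEFd_chd6 (K : Type) [Field K] [NumberField K] [Algebra F K] (hU : UnrSix K) (d : ℤ)
    (hd : AdmD d) (hA : UnrAt d K) (w : HeightOneSpectrum (𝓞 K)) :
    LEFd d K w = ArithmeticFunction.ofPowerSeries (Ideal.absNorm w.asIdeal)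
        ((1 - PowerSeries.C (Psi K w.asIdeal * chd d K w.asIdeal) * PowerSeries.X)⁻¹ :
          PowerSeries ℂ) *
      ArithmeticFunction.ofPowerSeries (Ideal.absNorm w.asIdeal)
        ((1 - PowerSeries.C ((starRingEnd ℂ) (Psi K w.asIdeal * chd d K w.asIdeal)) *
          PowerSeries.X)⁻¹ : PowerSeries ℂ) := by
  by_cases h3 : (3 : 𝓞 K) ∈ w.asIdeal
  · rw [H7_three w h3, zero_mul, map_zero (starRingEnd ℂ), L5_one, mul_one]
    have hdw := L5_not w d hd h3
    refine LEFd_bad K w d (-6) (fun k hk => by omega) ?_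
    have e1 : (27 * (d : K) ^ 6) = (3 : K) ^ 3 * (((d : 𝓞 K) : K)) ^ 6 := by
      norm_num
    rw [e1, map_mul, map_pow, map_pow, H19Y.val_three hU w h3, L5_val w _ hdw, one_pow, mul_one,
      ← WithZero.exp_nsmul]
    norm_num
  · by_cases hdw : (d : 𝓞 K) ∈ w.asIdeal
    · have h0 : chd d K w.asIdeal = 0 := by
        apply L8_zero d hd.ne_zero
        rw [Ideal.isCoprime_iff_sup_eq, sup_eq_left.2 ((Ideal.span_singleton_le_iff_mem _).2 hdw)]
        exact w.isPrime.ne_top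
      rw [h0, mul_zero, map_zero (starRingEnd ℂ), L5_one, mul_one]
      refine LEFd_bad K w d (-6) (fun k hk => by omega) ?_
      have e0 : (((3 : 𝓞 K) : K)) = 3 := map_ofNat (algebraMap (𝓞 K) K) 3
      have e1 : (27 * (d : K) ^ 6) = (((3 : 𝓞 K) : K)) ^ 3 * (d : K) ^ 6 := by
        rw [e0]
        norm_num
      rw [e1, map_mul, map_pow, map_pow, L5_val w _ h3, val_d K d hd hA w hdw, one_pow, one_mul,
        ← WithZero.exp_nsmul]
      norm_num
    · obtain ⟨v, hv⟩ := H1_below w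
      have hv3 : (3 : O) ∉ v.asIdeal := by
        intro h
        apply h3
        rw [hv, Ideal.mem_comap, map_ofNat] at h
        exact h
      have h1 := L5_poly K d hd w h3 hdw _ _ (loc_good K w h3 v hv)
      have h2 := L5_euler K w d _ _ h1
      have h4 : Psi K w.asIdeal = (starRingEnd ℂ) (e (gen v)) ^ (w.asIdeal.inertiaDeg O) := by
        rw [Psi_prime w v hv, psiF_prime v hv3]
      have h5 : (starRingEnd ℂ) (chd d K w.asIdeal) = chd d K w.asIdeal := by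
        have h6 : chd d K w.asIdeal = (jacobiSym (Ideal.absNorm w.asIdeal) d.natAbs : ℂ) :=
          if_neg w.ne_bot
        rw [h6, map_intCast]
      rw [h2, h4, map_mul (starRingEnd ℂ), h5, map_pow (starRingEnd ℂ) ((starRingEnd ℂ) (e (gen v))),
        Complex.conj_conj, mul_comm]

theorem LFunctiond6 (K : Type) [Field K] [NumberField K] [Algebra F K] (hU : UnrSix K) (d : ℤ)
    (hd : AdmD d) (hA : UnrAt d K) (n : ℕ) :
    ((((Ed d).baseChange K).LFunction n : ℤ) : ℂ) =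
      (AI (Psi K * chd d K : Ideal (𝓞 K) →*₀ ℂ) *
        AI (fun a => (starRingEnd ℂ) ((Psi K * chd d K : Ideal (𝓞 K) →*₀ ℂ) a))) n := by
  classical
  set L : HeightOneSpectrum (𝓞 K) → ArithmeticFunction ℤ := fun w =>
    (((Ed d).baseChange K).baseChange (w.adicCompletion K)).localEulerFactor
      (w.adicCompletionIntegers K) with hLdef
  have hL : ∀ᶠ T in Filter.atTop, (∏ w ∈ T, L w) n = ((Ed d).baseChange K).LFunction n := by
    have hN : Northcott (fun w : HeightOneSpectrum (𝓞 K) =>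
        Nat.card (IsLocalRing.ResidueField (w.adicCompletionIntegers K))) := by
      have h1 : (fun w : HeightOneSpectrum (𝓞 K) =>
        Nat.card (IsLocalRing.ResidueField (w.adicCompletionIntegers K))) =
          fun w => Ideal.absNorm w.asIdeal := funext fun w => (residue_card K w).2
      rw [h1]
      infer_instance
    exact ArithmeticFunction.tendsTo_eulerProduct_ofPowerSeries
      (fun w : HeightOneSpectrum (𝓞 K) =>
        Nat.card (IsLocalRing.ResidueField (w.adicCompletionIntegers K)))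
      (fun w => (((Ed d).baseChange K).baseChange (w.adicCompletion K)).localPowerSeries
        (w.adicCompletionIntegers K))
      (fun w => by simp [WeierstrassCurve.localPowerSeries]) n
  have hE : ∀ᶠ T : Finset (HeightOneSpectrum (𝓞 K)) in Filter.atTop,
      ∀ m ∈ Finset.range (n + 1),
      (∏ w ∈ T, ArithmeticFunction.ofPowerSeries (Ideal.absNorm w.asIdeal)
        ((1 - PowerSeries.C (Psi K w.asIdeal * chd d K w.asIdeal) * PowerSeries.X)⁻¹ :
          PowerSeries ℂ)) m =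
          AI (Psi K * chd d K : Ideal (𝓞 K) →*₀ ℂ) m ∧
      (∏ w ∈ T, ArithmeticFunction.ofPowerSeries (Ideal.absNorm w.asIdeal)
        ((1 - PowerSeries.C ((starRingEnd ℂ) (Psi K w.asIdeal * chd d K w.asIdeal)) *
          PowerSeries.X)⁻¹ : PowerSeries ℂ)) m =
          AI (fun a => (starRingEnd ℂ) ((Psi K * chd d K : Ideal (𝓞 K) →*₀ ℂ) a)) m := by
    rw [Filter.eventually_all_finset]
    intro m _
    exact (AI_euler (Psi K * chd d K : Ideal (𝓞 K) →*₀ ℂ) m).and (AI_euler (L6_conj K d) m)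
  obtain ⟨T, hT1, hT2⟩ := (hL.and hE).exists
  rw [← hT1, ← ArithmeticFunction.intCoe_apply, I2_cast_prod]
  have h1 : ∀ w ∈ T, ((L w : ArithmeticFunction ℤ) : ArithmeticFunction ℂ) =
      ArithmeticFunction.ofPowerSeries (Ideal.absNorm w.asIdeal)
        ((1 - PowerSeries.C (Psi K w.asIdeal * chd d K w.asIdeal) * PowerSeries.X)⁻¹ :
          PowerSeries ℂ) *
      ArithmeticFunction.ofPowerSeries (Ideal.absNorm w.asIdeal)
        ((1 - PowerSeries.C ((starRingEnd ℂ) (Psi K w.asIdeal * chd d K w.asIdeal)) *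
          PowerSeries.X)⁻¹ : PowerSeries ℂ) := fun w _ => LEFd_chd6 K hU d hd hA w
  rw [Finset.prod_congr rfl h1, Finset.prod_mul_distrib]
  refine I2_mul_congr ?_ ?_ n le_rfl
  · intro m hm
    exact (hT2 m (Finset.mem_range.2 (by omega))).1
  · intro m hm
    exact (hT2 m (Finset.mem_range.2 (by omega))).2

theorem L_of_lc (K : Type) [Field K] [NumberField K] [Algebra F K] (hU : UnrSix K) (d : ℤ)
    (hd : AdmD d) (hA : UnrAt d K) (L : ℂ → ℂ) (h : LC (Psi K * chd d K : Ideal (𝓞 K) →*₀ ℂ) L) :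
    ∃ Λ : ℂ → ℂ, AnalyticOnNhd ℂ Λ {s | 1 / 2 < s.re} ∧
      (∀ s : ℂ, 3 / 2 < s.re →
        LSeriesSummable (fun n => ((((Ed d).baseChange K).LFunction n : ℤ) : ℂ)) s ∧
        Λ s = ((Ed d).baseChange K).LSeries s) ∧
      Λ 1 / R0 ^ (2 * Module.finrank F K) =
        (L 1 / R0 ^ Module.finrank F K) * (starRingEnd ℂ) (L 1 / R0 ^ Module.finrank F K) := by
  obtain ⟨hLa, hLs⟩ := h
  have hR : (starRingEnd ℂ) R0 = R0 := H13E.R_real
  have e0 : (L 1 * (starRingEnd ℂ) (L ((starRingEnd ℂ) 1))) /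
      R0 ^ (2 * Module.finrank F K) =
      (L 1 / R0 ^ Module.finrank F K) * (starRingEnd ℂ) (L 1 / R0 ^ Module.finrank F K) := by
    rw [map_one, map_div₀, map_pow, hR, two_mul, pow_add, mul_div_mul_comm]
  refine ⟨fun z => L z * (starRingEnd ℂ) (L ((starRingEnd ℂ) z)), hLa.mul (I4_conj hLa), ?_, e0⟩
  · intro z hz
    have hz' : 3 / 2 < ((starRingEnd ℂ) z).re := by simpa using hz
    have h0 : (Psi K * chd d K : Ideal (𝓞 K) →*₀ ℂ) ⊥ = 0 :=
      (Psi K * chd d K : Ideal (𝓞 K) →*₀ ℂ).map_zero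
    have h1 := AI_LSeries (fun a => (Psi K * chd d K : Ideal (𝓞 K) →*₀ ℂ) a) h0 z
      (tm_summable _ (L7_norm_le K d) z hz)
    have h2 := AI_LSeries (fun a => (starRingEnd ℂ) ((Psi K * chd d K : Ideal (𝓞 K) →*₀ ℂ) a))
      (by rw [h0, map_zero]) z
      (tm_summable _ (fun a => by rw [RCLike.norm_conj]; exact L7_norm_le K d a) z hz)
    have e1 : ∑' a, tm (fun a => (Psi K * chd d K : Ideal (𝓞 K) →*₀ ℂ) a) z a = L z :=
      (hLs z hz).tsum_eq
    have e2 : ∑' a, tm (fun a => (starRingEnd ℂ) ((Psi K * chd d K : Ideal (𝓞 K) →*₀ ℂ) a)) z a =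
        (starRingEnd ℂ) (L ((starRingEnd ℂ) z)) := by
      have h3 := (Complex.hasSum_conj').2 (hLs _ hz')
      have h4 := h3.tsum_eq
      rw [← h4]
      exact tsum_congr fun a => H8_tm _ z a
    rw [e1] at h1
    rw [e2] at h2
    have h3 := ArithmeticFunction.LSeriesHasSum_mul h1 h2
    have e3 : (fun n => ((((Ed d).baseChange K).LFunction n : ℤ) : ℂ)) = fun n =>
        (AI (Psi K * chd d K : Ideal (𝓞 K) →*₀ ℂ) *
          AI (fun a => (starRingEnd ℂ) ((Psi K * chd d K : Ideal (𝓞 K) →*₀ ℂ) a))) n :=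
      funext fun n => LFunctiond6 K hU d hd hA n
    have key : LSeriesHasSum (fun n => ((((Ed d).baseChange K).LFunction n : ℤ) : ℂ)) z
        (L z * (starRingEnd ℂ) (L ((starRingEnd ℂ) z))) := by
      rw [e3]
      exact h3
    exact ⟨key.LSeriesSummable, key.LSeries_eq.symm⟩

variable {K₀ K : Type} [Field K₀] [NumberField K₀] [Field K] [NumberField K] [Algebra F K] [Algebra K₀ K]

theorem LEFd_three6 (K : Type) [Field K] [NumberField K] [Algebra F K] [Algebra K₀ K] (hU : UnrSix K)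
    (d : ℤ) (hd : AdmD d) (w' : HeightOneSpectrum (𝓞 K₀)) (h : (3 : 𝓞 K₀) ∈ w'.asIdeal) :
    LEFd d K₀ w' = 1 := by
  have hdm : (d : 𝓞 K₀) ∉ w'.asIdeal := by
    intro hc
    obtain ⟨a, b, hab⟩ := hd.coprime_six
    apply w'.isPrime.ne_top
    rw [Ideal.eq_top_iff_one]
    have h1 : (1 : 𝓞 K₀) = (a : 𝓞 K₀) * (d : 𝓞 K₀) + (2 * (b : 𝓞 K₀)) * 3 := by
      have h2 := congrArg (fun z : ℤ => (z : 𝓞 K₀)) hab
      push_cast at h2
      linear_combination -h2
    rw [h1]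
    exact add_mem (Ideal.mul_mem_left _ _ hc) (Ideal.mul_mem_left _ _ h)
  have hvd : w'.valuation K₀ (d : K₀) = 1 := by
    have h1 := Q2_val_one K₀ w' d hdm
    have h2 : (((d : ℤ) : 𝓞 K₀) : K₀) = (d : K₀) := map_intCast _ d
    rwa [h2] at h1
  have h27 : (27 : K₀) = 3 ^ 3 := by norm_num
  rcases H19Y.val0_three K hU w' h with h3 | h3
  · apply LEFd_bad K₀ w' d (-3) (by intro k; omega)
    rw [h27, map_mul, map_pow, map_pow, h3, hvd, one_pow, mul_one, ← WithZero.exp_nsmul]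
    norm_num
  · apply LEFd_bad K₀ w' d (-6) (by intro k; omega)
    rw [h27, map_mul, map_pow, map_pow, h3, hvd, one_pow, mul_one, ← WithZero.exp_nsmul]
    norm_num

theorem LEFd_sq6 (hQ : H13E.Quad K₀ K) (hU : UnrSix K) (d : ℤ) (hd : AdmD d) (hA : UnrAt d K₀)
    (w' : HeightOneSpectrum (𝓞 K₀)) (h3 : (3 : 𝓞 K₀) ∉ w'.asIdeal)
    (T : Finset (HeightOneSpectrum (𝓞 K))) (hT : ∀ w, w ∈ T ↔ w'.asIdeal = w.asIdeal.under (𝓞 K₀)) :
    ∏ w ∈ T, LEFd d K w = LEFd d K₀ w' * LEFd d K₀ w' := by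
  classical
  have hdm : ∀ w : HeightOneSpectrum (𝓞 K), w'.asIdeal = w.asIdeal.under (𝓞 K₀) →
      ((d : 𝓞 K) ∈ w.asIdeal ↔ (d : 𝓞 K₀) ∈ w'.asIdeal) := by
    intro w hw
    rw [hw, Ideal.mem_comap, map_intCast]
  by_cases hdw : (d : 𝓞 K₀) ∈ w'.asIdeal
  · rw [Q2_above_d K₀ d hd hA w' h3 hdw, mul_one]
    refine Finset.prod_eq_one fun w hw => ?_
    have hw1 := (hT w).1 hw
    exact Q2_above_d K d hd (UnrAt_up hQ d hd hA) w
      (fun hc => h3 ((H13E.q5_mem w' w hw1 3).2 hc)) ((hdm w hw1).2 hdw)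
  rcases H13E.norm_mod3 w' h3 with h | h
  · obtain ⟨w₁, w₂, hne, hall, hn1, hn2⟩ := H13E.split_one hQ w' h3 h
    have hT' : T = {w₁, w₂} := by
      ext w
      rw [hT, hall, Finset.mem_insert, Finset.mem_singleton]
    have hw1 := (hall w₁).2 (Or.inl rfl)
    have hw2 := (hall w₂).2 (Or.inr rfl)
    rw [hT', Finset.prod_pair hne,
      LEFd_norm K K₀ d hd.four w₁ w' (fun hc => h3 ((H13E.q5_mem w' w₁ hw1 3).2 hc)) h3
        (fun hc => hdw ((hdm w₁ hw1).1 hc)) hdw hn1,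
      LEFd_norm K K₀ d hd.four w₂ w' (fun hc => h3 ((H13E.q5_mem w' w₂ hw2 3).2 hc)) h3
        (fun hc => hdw ((hdm w₂ hw2).1 hc)) hdw hn2]
  · obtain ⟨w₁, hall, hn1⟩ := H13E.split_two hQ w' h3 h
    have hT' : T = {w₁} := by
      ext w
      rw [hT, hall, Finset.mem_singleton]
    rw [hT', Finset.prod_singleton]
    exact LEFd_two hQ d hd w' h3 h w₁ ((hall w₁).2 rfl)

theorem LFund_sq6 (hQ : H13E.Quad K₀ K) (hU : UnrSix K) (d : ℤ) (hd : AdmD d) (hA : UnrAt d K₀)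
    (n : ℕ) :
    ((((Ed d).baseChange K).LFunction n : ℤ) : ℂ) =
      (((((Ed d).baseChange K₀).LFunction : ArithmeticFunction ℤ) : ArithmeticFunction ℂ) *
        ((((Ed d).baseChange K₀).LFunction : ArithmeticFunction ℤ) : ArithmeticFunction ℂ)) n := by
  classical
  obtain ⟨s0, hs0⟩ := Filter.eventually_atTop.1 (Q3_ev d K n)
  have hR : ∀ᶠ t : Finset (HeightOneSpectrum (𝓞 K₀)) in Filter.atTop,
      ∀ m ∈ Finset.range (n + 1),
      (∏ w ∈ t, LEFd d K₀ w) m = ((((Ed d).baseChange K₀).LFunction m : ℤ) : ℂ) := by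
    rw [Filter.eventually_all_finset]
    intro m _
    exact Q3_ev d K₀ m
  obtain ⟨t0, ht0⟩ := Filter.eventually_atTop.1 hR
  set ov : HeightOneSpectrum (𝓞 K₀) → Finset (HeightOneSpectrum (𝓞 K)) :=
    fun v => (H13E.q6_fin K v).toFinset with hov
  have hmo : ∀ v w, w ∈ ov v ↔ v.asIdeal = w.asIdeal.under (𝓞 K₀) := by
    intro v w
    simp [hov]
  set t : Finset (HeightOneSpectrum (𝓞 K₀)) := t0 ∪ s0.image (H13E.q6_under K₀) with ht
  set T : Finset (HeightOneSpectrum (𝓞 K)) := t.biUnion ov with hTdef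
  have hsub : s0 ⊆ T := by
    intro w hw
    rw [hTdef, Finset.mem_biUnion]
    refine ⟨H13E.q6_under K₀ w, Finset.mem_union_right _ (Finset.mem_image_of_mem _ hw), ?_⟩
    rw [hmo]
    rfl
  rw [← hs0 T hsub, hTdef, Finset.prod_biUnion]
  · have h2 : ∀ v ∈ t, ∏ w ∈ ov v, LEFd d K w = LEFd d K₀ v * LEFd d K₀ v := by
      intro v _
      by_cases hb : (3 : 𝓞 K₀) ∈ v.asIdeal
      · rw [LEFd_three6 K hU d hd v hb, mul_one]
        apply Finset.prod_eq_one
        intro w hw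
        rw [hmo] at hw
        exact LEFd_three6 (K₀ := K) K hU d hd w ((H13E.q5_mem v w hw 3).1 hb)
      · exact LEFd_sq6 hQ hU d hd hA v hb (ov v) (hmo v)
    rw [Finset.prod_congr rfl h2, Finset.prod_mul_distrib]
    have hts : t0 ⊆ t := Finset.subset_union_left
    refine I2_mul_congr ?_ ?_ n le_rfl
    · intro m hm
      rw [ht0 t hts m (Finset.mem_range.2 (by omega)), ArithmeticFunction.intCoe_apply]
    · intro m hm
      rw [ht0 t hts m (Finset.mem_range.2 (by omega)), ArithmeticFunction.intCoe_apply]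
  · intro v _ v' _ hne
    rw [Function.onFun, Finset.disjoint_left]
    intro w hw hw'
    rw [hmo] at hw hw'
    apply hne
    apply HeightOneSpectrum.ext
    rw [hw, hw']

theorem LFund06 (hQ : H13E.Quad K₀ K) (hU : UnrSix K) (d : ℤ) (hd : AdmD d) (hA : UnrAt d K₀)
    (n : ℕ) :
    ((((Ed d).baseChange K₀).LFunction n : ℤ) : ℂ) =
      AI (Psi K * chd d K : Ideal (𝓞 K) →*₀ ℂ) n := by
  have hf1 : ((((Ed d).baseChange K₀).LFunction : ArithmeticFunction ℤ) : ArithmeticFunction ℂ) 1 =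
      1 := by
    rw [ArithmeticFunction.intCoe_apply]
    exact Q4_LFun_one d K₀
  have hsq : ∀ m, (((((Ed d).baseChange K₀).LFunction : ArithmeticFunction ℤ) :
        ArithmeticFunction ℂ) *
      ((((Ed d).baseChange K₀).LFunction : ArithmeticFunction ℤ) : ArithmeticFunction ℂ)) m =
      (AI (Psi K * chd d K : Ideal (𝓞 K) →*₀ ℂ) * AI (Psi K * chd d K : Ideal (𝓞 K) →*₀ ℂ)) m := by
    intro m
    rw [← LFund_sq6 hQ hU d hd hA m, LFunctiond6 K hU d hd (UnrAt_up hQ d hd hA) m, AId_real hQ]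
  have hfg := H13E.sqrt_unique hf1 (g := AI (Psi K * chd d K : Ideal (𝓞 K) →*₀ ℂ))
    (Q4_AI_one _) hsq
  rw [← hfg, ArithmeticFunction.intCoe_apply]

theorem L_of_lc0 (hQ : H13E.Quad K₀ K) (hU : UnrSix K) (d : ℤ) (hd : AdmD d) (hA : UnrAt d K₀)
    (Λ : ℂ → ℂ) (h : LC (Psi K * chd d K : Ideal (𝓞 K) →*₀ ℂ) Λ) :
    AnalyticOnNhd ℂ Λ {s | 1 / 2 < s.re} ∧
      (∀ s : ℂ, 3 / 2 < s.re →
        LSeriesSummable (fun n => ((((Ed d).baseChange K₀).LFunction n : ℤ) : ℂ)) s ∧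
        Λ s = ((Ed d).baseChange K₀).LSeries s) := by
  obtain ⟨hA', hsum⟩ := h
  refine ⟨hA', ?_⟩
  intro s hs
  have h0 : (Psi K * chd d K : Ideal (𝓞 K) →*₀ ℂ) ⊥ = 0 :=
    (Psi K * chd d K : Ideal (𝓞 K) →*₀ ℂ).map_zero
  have h1 := AI_LSeries (fun a => (Psi K * chd d K : Ideal (𝓞 K) →*₀ ℂ) a) h0 s
    (tm_summable (fun a => (Psi K * chd d K : Ideal (𝓞 K) →*₀ ℂ) a) (Q5_norm_le d) s hs)
  have h2 : ∑' a : Ideal (𝓞 K), tm (fun a => (Psi K * chd d K : Ideal (𝓞 K) →*₀ ℂ) a) s a = Λ s :=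
    (hsum s hs).tsum_eq
  rw [h2] at h1
  have key : LSeriesHasSum (fun n => ((((Ed d).baseChange K₀).LFunction n : ℤ) : ℂ)) s (Λ s) := by
    have e1 : (fun n => ((((Ed d).baseChange K₀).LFunction n : ℤ) : ℂ)) =
        fun n => AI (fun a => (Psi K * chd d K : Ideal (𝓞 K) →*₀ ℂ) a) n := by
      funext n
      exact LFund06 hQ hU d hd hA n
    rw [e1]
    exact h1
  exact ⟨key.LSeriesSummable, key.LSeries_eq.symm⟩

end H19Y
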