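import Mathlib
import Pool.Agent.Lib.H19X.T1
import Pool.Agent.Lib.H19Y.Y6
import Pool.Agent.Lib.H55E.T2
import Pool.Agent.Lib.H55E.X1

/-! Tamagawa numbers at 3, adjoining the square root of d (W12, T2, X1 of H55C, H55E for fields unramified above 6). -/

open NumberField IsDedekindDomain

namespace H19Y

open H55B H55C H55E H55N H19X

theorem tam_odd6 (K : Type) [Field K] [NumberField K] [Algebra F K] (hK : UnrSix K)
    (w : HeightOneSpectrum (𝓞 K)) (h : (3 : 𝓞 K) ∈ w.asIdeal) : Odd (tam K w) := by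
  classical
  obtain ⟨T, h3, hT⟩ := cosets K w (H19Y.val_three hK w h)
  unfold tam
  refine W12_index _ T h3 fun P => ?_
  rcases hT P with h1 | h1 | h1
  · exact Or.inl (AddSubgroup.subset_closure h1)
  · exact Or.inr (Or.inl (AddSubgroup.subset_closure h1))
  · exact Or.inr (Or.inr (AddSubgroup.subset_closure h1))

section

variable {K₀ : Type} [Field K₀] [NumberField K₀]

theorem tamd_three6 (K' : Type) [Field K'] [NumberField K'] [Algebra F K'] [Algebra K₀ K']
    (hU : UnrSix K') (d : ℤ) (hd : AdmD d) (δ : K') (hδ : δ ^ 2 = (d : K'))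
    (w : HeightOneSpectrum (𝓞 K₀)) (h : (3 : 𝓞 K₀) ∈ w.asIdeal) : Odd (tamd d K₀ w) := by
  classical
  obtain ⟨Q, hQ, hQl⟩ := Ideal.exists_maximal_ideal_liesOver_of_isIntegral (S := 𝓞 K') w.asIdeal
  have hunder : w.asIdeal = Q.under (𝓞 K₀) := hQl.over
  have hQ0 : Q ≠ ⊥ := by
    rintro rfl
    apply w.ne_bot
    rw [hunder]
    exact Ideal.under_bot (𝓞 K₀) (𝓞 K')
  obtain ⟨W, hW⟩ : ∃ W : HeightOneSpectrum (𝓞 K'), W.asIdeal = Q := ⟨⟨Q, hQ.isPrime, hQ0⟩, rfl⟩
  rw [← hW] at hunder
  have h3w : (3 : 𝓞 K') ∈ W.asIdeal := by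
    have h1 : (3 : 𝓞 K₀) ∈ W.asIdeal.under (𝓞 K₀) := hunder ▸ h
    rw [Ideal.mem_under] at h1
    rwa [map_ofNat] at h1
  obtain ⟨ι, e, he, -, hv⟩ := H55C.exists_iota K₀ K' W w hunder
  have hv3 := H55D.DT2_val3 K' W h3w
  have hdv := ET2_unit (Valued.v (R := W.adicCompletion K')) hv3 d hd.coprime_six
  have hδ' : (algebraMap K' (W.adicCompletion K') δ) ^ 2 = (d : W.adicCompletion K') := by
    rw [← map_pow, hδ, map_intCast]
  refine Odd.of_dvd_nat (tam_odd6 K' hU W h3w) ?_
  exact ET2_index' (Valued.v (R := w.adicCompletion K₀)) (Valued.v (R := W.adicCompletion K'))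
    hv3 ι e he hv d hd.ne_zero hdv _ hδ'

end

theorem cop_three {d : ℤ} (hd : AdmD d) : IsCoprime d 3 := by
  have h := hd.coprime_six
  have : (6 : ℤ) = 2 * 3 := by norm_num
  rw [this] at h
  exact h.of_mul_right_right

theorem X1_unr6 (L E : Type) [Field L] [NumberField L] [Algebra F L] (hG : IsGalois F L)
    (hU : UnrSix L) [Field E] [NumberField E] [Algebra F E] [Algebra L E] [IsScalarTower F L E]
    (hGE : IsGalois F E) (d : ℤ) (hd4 : d % 4 = 1) (hd3 : IsCoprime d 3) (δ : E) (hδ : δ ^ 2 = (d : E))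
    (htop : IntermediateField.adjoin L {δ} = ⊤) : UnrSix E := by
  intro w h6
  let v : HeightOneSpectrum O := I2_under w
  have hv : v.asIdeal = w.asIdeal.under O := rfl
  rw [inertia_iff w]
  intro g hg
  let g₀ : L ≃ₐ[F] L := g.restrictNormal L
  have hg₀ : ∀ x : L, algebraMap L E (g₀ x) = g (algebraMap L E x) := fun x =>
    AlgEquiv.restrictNormal_commutes g L x
  have hwp := w.isPrime
  have hvp := v.isPrime
  have hp : (w.asIdeal.under (𝓞 L)).IsPrime := inferInstance
  have hne : w.asIdeal.under (𝓞 L) ≠ ⊥ := by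
    intro h
    exact w.ne_bot (Ideal.eq_bot_of_comap_eq_bot (R := 𝓞 L) (I := w.asIdeal) h)
  let w₀ : HeightOneSpectrum (𝓞 L) := ⟨w.asIdeal.under (𝓞 L), hp, hne⟩
  have h1 : ∀ y : 𝓞 L, g₀ • y - y ∈ w₀.asIdeal := by
    intro y
    show algebraMap (𝓞 L) (𝓞 E) (g₀ • y - y) ∈ w.asIdeal
    have h2 : algebraMap (𝓞 L) (𝓞 E) (g₀ • y) = g • algebraMap (𝓞 L) (𝓞 E) y := by
      apply NumberField.RingOfIntegers.ext
      exact hg₀ _
    rw [map_sub, h2]
    exact hg _
  have hv₀ : v.asIdeal = w₀.asIdeal.under O := by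
    rw [hv]
    ext x
    show algebraMap O (𝓞 E) x ∈ w.asIdeal ↔ algebraMap (𝓞 L) (𝓞 E) (algebraMap O (𝓞 L) x) ∈ w.asIdeal
    rw [← IsScalarTower.algebraMap_apply O (𝓞 L) (𝓞 E) x]
  have h60 : (6 : 𝓞 L) ∈ w₀.asIdeal := by
    show (6 : 𝓞 L) ∈ w.asIdeal.under (𝓞 L)
    rw [Ideal.mem_under, map_ofNat]
    exact h6
  have hg1 : g₀ = 1 := (inertia_iff w₀).1 (hU w₀ h60) g₀ h1
  have hfix : ∀ x : L, g (algebraMap L E x) = algebraMap L E x := by
    intro x
    rw [← hg₀, hg1]
    rfl
  -- the square root is fixed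
  have hdv : (d : O) ∉ v.asIdeal := by
    intro hdv
    have h6v : (6 : O) ∈ v.asIdeal := by
      show algebraMap O (𝓞 E) 6 ∈ w.asIdeal
      rw [map_ofNat]
      exact h6
    have hc2 : IsCoprime d 2 := ⟨1, -(2 * (d / 4)), by omega⟩
    have hc6 : IsCoprime d (2 * 3) := hc2.mul_right hd3
    obtain ⟨a, b, hab⟩ := hc6
    apply hvp.ne_top
    rw [Ideal.eq_top_iff_one]
    have h8 := congrArg (fun z : ℤ => (z : O)) hab
    push_cast at h8
    have h9 : (1 : O) = (a : O) * (d : O) + (b : O) * 6 := by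
      rw [← h8]
    rw [h9]
    exact v.asIdeal.add_mem (v.asIdeal.mul_mem_left _ hdv) (v.asIdeal.mul_mem_left _ h6v)
  have hint : IsIntegral ℤ ((1 + δ) / 2) := by
    refine ⟨Polynomial.X ^ 2 - Polynomial.X - Polynomial.C ((d - 1) / 4), ?_, ?_⟩
    · monicity!
    · have h4 : (4 : E) * (((d - 1) / 4 : ℤ) : E) + 1 = (d : E) := by
        have h5 : 4 * ((d - 1) / 4) + 1 = d := by
          have := hd4
          omega
        have h6 := congrArg (fun z : ℤ => (z : E)) h5
        push_cast at h6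
        exact h6
      simp only [Polynomial.eval₂_sub, Polynomial.eval₂_pow, Polynomial.eval₂_X,
        Polynomial.eval₂_C]
      rw [← h4] at hδ
      have h7 : algebraMap ℤ E ((d - 1) / 4) = (((d - 1) / 4 : ℤ) : E) := by simp
      rw [h7]
      linear_combination (1 / 4 : E) * hδ
  have hgδ : g δ = δ := by
    have h2 : (g δ) ^ 2 = (d : E) := by rw [← map_pow, hδ, map_intCast]
    have h3 : (g δ - δ) * (g δ + δ) = 0 := by linear_combination h2 - hδ
    rcases mul_eq_zero.1 h3 with h | h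
    · exact sub_eq_zero.1 h
    · exfalso
      have h4 : g δ = -δ := by linear_combination h
      let η : 𝓞 E := ⟨(1 + δ) / 2, hint⟩
      have h5 : g • η - η = 1 - 2 * η := by
        apply NumberField.RingOfIntegers.ext
        show g ((1 + δ) / 2) - (1 + δ) / 2 = 1 - 2 * ((1 + δ) / 2)
        rw [map_div₀, map_add, map_one, h4, map_ofNat]
        ring
      have h6 : 1 - 2 * η ∈ w.asIdeal := by
        rw [← h5]
        exact hg η
      have h7 : (d : 𝓞 E) = (1 - 2 * η) * (1 - 2 * η) := by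
        apply NumberField.RingOfIntegers.ext
        show ((d : 𝓞 E) : E) = (1 - 2 * ((1 + δ) / 2)) * (1 - 2 * ((1 + δ) / 2))
        have h8 : ((d : 𝓞 E) : E) = (d : E) := by simp
        rw [h8, ← hδ]
        ring
      have h9 : (d : 𝓞 E) ∈ w.asIdeal := by
        rw [h7]
        exact w.asIdeal.mul_mem_left _ h6
      apply hdv
      rw [hv]
      show algebraMap O (𝓞 E) (d : O) ∈ w.asIdeal
      rwa [map_intCast]
  ext x
  have hx : x ∈ IntermediateField.adjoin L {δ} := by
    rw [htop]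
    exact IntermediateField.mem_top
  show g x = x
  refine IntermediateField.adjoin_induction L (p := fun x _ => g x = x) ?_ hfix ?_ ?_ ?_ hx
  · rintro x rfl
    exact hgδ
  · intro x y _ _ h1 h2
    rw [map_add, h1, h2]
  · intro x _ h1
    rw [map_inv₀, h1]
  · intro x y _ _ h1 h2
    rw [map_mul, h1, h2]

theorem X1_top6 (L : Type) [Field L] [NumberField L] [Algebra F L] (hT : TwoExt L) (hU : UnrSix L)
    (d : ℤ) (hd4 : d % 4 = 1) (hd3 : IsCoprime d 3) :
    ∃ (E : Type) (_ : Field E) (_ : NumberField E) (_ : Algebra F E) (_ : Algebra L E)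
      (_ : IsScalarTower F L E) (δ : E), δ ^ 2 = (d : E) ∧ TwoExt E ∧ UnrSix E := by
  classical
  obtain ⟨hG, k, hk⟩ := hT
  have hfd : FiniteDimensional F L := FiniteDimensional.of_finrank_pos (by
    rw [hk]
    positivity)
  obtain ⟨δ, hδ⟩ := IsAlgClosed.exists_pow_nat_eq (d : AlgebraicClosure L) (n := 2) (by norm_num)
  let E : IntermediateField L (AlgebraicClosure L) := IntermediateField.adjoin L {δ}
  have hmem : δ ∈ E := IntermediateField.mem_adjoin_simple_self L δ
  have hint : ∀ x ∈ ({δ} : Set (AlgebraicClosure L)), IsIntegral L x := by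
    intro x _
    exact (Algebra.IsAlgebraic.isAlgebraic x).isIntegral
  have hEfin : FiniteDimensional L E := IntermediateField.finiteDimensional_adjoin hint
  have hnf : NumberField E := NumberField.of_module_finite L E
  have hN : Normal F E := X1_normal L hG d δ hδ
  have hGE : IsGalois F E := { to_normal := hN }
  have hδE : (⟨δ, hmem⟩ : E) ^ 2 = (d : E) := by
    apply Subtype.ext
    show δ ^ 2 = ((d : E) : AlgebraicClosure L)
    rw [hδ]
    simp
  have htop : IntermediateField.adjoin L {(⟨δ, hmem⟩ : E)} = ⊤ := by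
    have h1 : IntermediateField.map E.val (IntermediateField.adjoin L {(⟨δ, hmem⟩ : E)}) =
        IntermediateField.map E.val ⊤ := by
      rw [IntermediateField.adjoin_map, Set.image_singleton]
      show IntermediateField.adjoin L {δ} = _
      rw [← AlgHom.fieldRange_eq_map, IntermediateField.fieldRange_val]
    exact IntermediateField.map_injective E.val h1
  refine ⟨E, inferInstance, hnf, inferInstance, inferInstance, inferInstance, ⟨δ, hmem⟩, hδE,
    ⟨hGE, ?_⟩, X1_unr6 L E hG hU hGE d hd4 hd3 _ hδE htop⟩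
  have h2 := Module.finrank_mul_finrank F L E
  rw [hk] at h2
  rcases X1_rank L (AlgebraicClosure L) (d : L) δ (by rw [hδ, map_intCast]) with h | h
  · have h' : Module.finrank L E = 1 := h
    refine ⟨k, ?_⟩
    rw [← h2, h', mul_one]
  · have h' : Module.finrank L E = 2 := h
    refine ⟨k + 1, ?_⟩
    rw [← h2, h', pow_succ]

theorem exists_sqrt6 (K : Type) [Field K] [NumberField K] [Algebra F K] (hS : Sub6 K) (d : ℤ)
    (hd : AdmD d) (hns : ¬ IsSquare (d : K)) :
    ∃ (K' : Type) (_ : Field K') (_ : NumberField K') (_ : Algebra F K') (_ : Algebra K K')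
      (_ : IsScalarTower F K K'), Module.finrank K K' = 2 ∧ (∃ δ : K', δ ^ 2 = (d : K')) ∧
        Sub6 K' := by
  classical
  obtain ⟨L, hL1, hL2, hL3, hL4, hL5, hT, hU⟩ := hS
  obtain ⟨L', h1, h2, h3, h4, h5, δ, hδ, hT', hU'⟩ := X1_top6 L hT hU d hd.four (cop_three hd)
  let hKL : Algebra K L' := ((algebraMap L L').comp (algebraMap K L)).toAlgebra
  let E : IntermediateField K L' := IntermediateField.adjoin K {δ}
  have hmem : δ ∈ E := IntermediateField.mem_adjoin_simple_self K δ
  have hδK : δ ^ 2 = algebraMap K L' (d : K) := by rw [hδ, map_intCast]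
  have hrank : Module.finrank K E = 2 := X1_rank_two K L' (d : K) δ hδK hns
  have hEfin : FiniteDimensional K E := FiniteDimensional.of_finrank_pos (by
    rw [hrank]
    norm_num)
  have hnf : NumberField E := NumberField.of_module_finite K E
  let hFE : Algebra F E := ((algebraMap K E).comp (algebraMap F K)).toAlgebra
  have htow : IsScalarTower F K E := IsScalarTower.of_algebraMap_eq (fun x => rfl)
  have htow' : IsScalarTower F E L' := IsScalarTower.of_algebraMap_eq (fun x => by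
    have e1 : algebraMap F L' x = algebraMap L L' (algebraMap F L x) :=
      IsScalarTower.algebraMap_apply F L L' x
    have e2 : algebraMap F L x = algebraMap K L (algebraMap F K x) :=
      IsScalarTower.algebraMap_apply F K L x
    rw [e1, e2]
    rfl)
  refine ⟨E, inferInstance, hnf, hFE, inferInstance, htow, hrank, ⟨⟨δ, hmem⟩, ?_⟩,
    L', h1, h2, h3, inferInstance, htow', hT', hU'⟩
  apply Subtype.ext
  show δ ^ 2 = ((d : E) : L')
  rw [hδ]
  simp

theorem exists_sqrt_any6 (K : Type) [Field K] [NumberField K] [Algebra F K] (hS : Sub6 K) (d : ℤ)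
    (hd : AdmD d) : ∃ (K' : Type) (_ : Field K') (_ : NumberField K') (_ : Algebra F K')
      (_ : Algebra K K'), (∃ δ : K', δ ^ 2 = (d : K')) ∧ Sub6 K' := by
  by_cases hsq : IsSquare (d : K)
  · obtain ⟨δ, hδ'⟩ := hsq
    exact ⟨K, inferInstance, inferInstance, inferInstance, Algebra.id K, ⟨δ, by rw [hδ', sq]⟩, hS⟩
  · obtain ⟨K', i1, i2, i3, i4, i5, h2, hδ, hS'⟩ := exists_sqrt6 K hS d hd hsq
    exact ⟨K', i1, i2, i3, i4, hδ, hS'⟩

theorem tamd_odd6 (K₀ K : Type) [Field K₀] [NumberField K₀] [Field K] [NumberField K] [Algebra F K]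
    [Algebra K₀ K] (hS : Sub6 K) (d : ℤ) (hd : AdmD d) (hA : UnrAt d K₀)
    (w : HeightOneSpectrum (𝓞 K₀)) : Odd (tamd d K₀ w) := by
  by_cases h3 : (3 : 𝓞 K₀) ∈ w.asIdeal
  · obtain ⟨K', i1, i2, i3, i4, ⟨δ, hδ⟩, hS'⟩ := exists_sqrt_any6 K hS d hd
    letI : Algebra K₀ K' := ((algebraMap K K').comp (algebraMap K₀ K)).toAlgebra
    exact tamd_three6 K' (sub6_unrSix hS') d hd δ hδ w h3
  · rw [tamd_one6 K hS d hd hA w h3]
    exact odd_one

end H19Y
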