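import Mathlib
import Pool.Agent.Lib.H19Y.Stat
import Pool.Agent.Lib.H55C.A16
import Pool.Agent.Lib.H55D.Fin1
import Pool.Agent.Lib.H55E.A1
import Pool.Agent.Lib.H55E.P1

/-! Torsion, the analytic order of Sha, and the exact criterion. -/

open NumberField IsDedekindDomain

namespace H19Y

open H55B H55C H55E H55N H19X

/-- The torsion of E_d(K₀) is finite of odd order. -/
theorem tors_odd (K₀ K' : Type) [Field K₀] [NumberField K₀] [Field K'] [NumberField K'] [Algebra F K']
    [Algebra K₀ K'] (k : ℕ) (hk : Module.finrank F K' = 2 ^ k) (d : ℤ) (hd : d ≠ 0) (δ : K')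
    (hδ : δ ^ 2 = (d : K')) : Odd (torsd d K₀) := by
  classical
  let f : K₀ →ₐ[ℚ] K' := (algebraMap K₀ K').toRatAlgHom
  let g : ((Ed d).baseChange K₀).toAffine.Point →+ ((Ed d).baseChange K').toAffine.Point :=
    WeierstrassCurve.Affine.Point.map (W' := Ed d) f
  have hg : Function.Injective g := WeierstrassCurve.Affine.Point.map_injective (W' := Ed d) f
  obtain ⟨t, ht, -⟩ := exists_twist K' d hd δ hδ
  have hinj : Function.Injective (t.comp g) := by
    rw [AddMonoidHom.coe_comp]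
    exact ht.comp hg
  have hfin := finite_tors K'
  let T : AddSubgroup ((Ed d).baseChange K₀).toAffine.Point :=
    AddCommGroup.torsion ((Ed d).baseChange K₀).toAffine.Point
  have hTfin : Finite T := Finite.of_injective
    (fun P : T => (⟨t.comp g P.1, AddMonoidHom.isOfFinAddOrder (t.comp g) P.2⟩ :
      {P : (E27.baseChange K').toAffine.Point // IsOfFinAddOrder P}))
    fun P Q hPQ => Subtype.ext (hinj (congrArg Subtype.val hPQ))
  have hcard : torsd d K₀ = Nat.card T := by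
    unfold torsd
    exact Nat.card_congr (Equiv.refl _)
  rw [hcard]
  by_contra hodd
  rw [Nat.not_odd_iff_even] at hodd
  haveI : Fact (Nat.Prime 2) := ⟨Nat.prime_two⟩
  obtain ⟨P, hP⟩ := exists_prime_addOrderOf_dvd_card' (G := T) 2 hodd.two_dvd
  have h1 : (2 : ℕ) • P = 0 := by
    have h2 := addOrderOf_nsmul_eq_zero P
    rwa [hP] at h2
  have h2 : (2 : ℕ) • (t.comp g) P.1 = 0 := by
    have h3 := congrArg (fun Q : T => (t.comp g) Q.1) h1
    simpa using h3
  have h3 := no_two K' k hk _ h2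
  have h4 : P.1 = 0 := hinj (by rw [h3, map_zero])
  have h5 : P = 0 := Subtype.ext h4
  rw [h5, addOrderOf_zero] at hP
  omega

/-- shaTd is the L-value divided by the power of the period, times a unit. -/
theorem shaTd_eq (K : Type) [Field K] [NumberField K] (d : ℤ) (hd : AdmD d)
    (hD : Odd (NumberField.discr K)) (hE : Odd (torsd d K))
    (ht : ∀ w : HeightOneSpectrum (𝓞 K), Odd (tamd d K w))
    (L : PeriodPair) (h2 : L.g₂ = 0) (h3 : L.g₃ = -(d : ℂ) ^ 3) :
    ∃ u : ℂ, Unit2 u ∧ ∀ L1 : ℂ, shaTd d K L L1 =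
      (L1 / R0 ^ (InfinitePlace.nrRealPlaces K + 2 * InfinitePlace.nrComplexPlaces K)) * u := by
  obtain ⟨X, hR0, -⟩ := exists_X
  have hr : R0 ≠ 0 := hR0
  obtain ⟨hv, hw⟩ := R0_Omrd d hd L h2 h3
  have htt : Unit2 (∏ᶠ w : HeightOneSpectrum (𝓞 K), (tamd d K w : ℂ)) := by
    refine finprod_induction Unit2 ?_ (fun x y hx hy => hx.mul hy) fun w => W13_nat (ht w)
    have h := W13_nat odd_one
    rwa [Nat.cast_one] at h
  have hE' := (W13_nat hE).pow 2
  have hs := W13_sqrt _ hD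
  refine ⟨(R0 / (H55D.Omr L : ℂ)) ^ InfinitePlace.nrRealPlaces K *
    (R0 ^ 2 / (Om L : ℂ)) ^ InfinitePlace.nrComplexPlaces K *
    ((Real.sqrt |(NumberField.discr K : ℝ)| : ℝ) : ℂ) * (torsd d K : ℂ) ^ 2 /
      (∏ᶠ w : HeightOneSpectrum (𝓞 K), (tamd d K w : ℂ)),
    W13_div (((hv.pow _).mul (hw.pow _) |>.mul hs).mul hE') htt, fun L1 => ?_⟩
  unfold shaTd
  rw [H55D.Fin1_alg L1 _ _ _ _ _ R0 _ _ hr]
  ring

end H19Y
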