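import Mathlib
import Pool.Agent.Lib.H19X.Fin
import Pool.Agent.Lib.H19Y.Y5
import Pool.Agent.Lib.H19Y.Y7
import Pool.Agent.Lib.H19Y.Y8
import Pool.Agent.Lib.H19Y.Y9
import Pool.Agent.Lib.H55E.Fin

/-! The exact criterion. -/

open NumberField IsDedekindDomain

namespace H19Y

open H55B H55C H55E H55N H19X

theorem QChr6.of_qchr {K : Type} [Field K] [NumberField K] [Algebra F K] {f : Ideal (𝓞 K)}
    {χ : Ideal (𝓞 K) →*₀ ℂ} (h : QChr f χ) : QChr6 f χ :=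
  ⟨h.ne, TWF_cop_two h, h.val, h.zero, h.per⟩

/-- The twist by the quadratic character of d. -/
theorem twist_d (K : Type) [Field K] [NumberField K] [Algebra F K] (hS : Sub6 K) (d : ℤ)
    (hd : AdmD d) (ΛK : ℂ → ℂ) (h : Val (Psi K) ΛK) :
    ∃ Λ : ℂ → ℂ, Val (Psi K * chd d K : Ideal (𝓞 K) →*₀ ℂ) Λ := by
  have hq := chd_qchr K d hd
  obtain ⟨Λ, S, u, r, hlc, hSf, hu, hr, hval⟩ :=
    twist_cong hS _ _ (QChr6.of_qchr hq) ΛK h.lc
  have hEu : Unit2 (∏ w ∈ S, (1 - tm (Psi K) 1 w.asIdeal)) :=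
    Unit2.prod _ _ fun w hw => Efac_unit K w (I2_under w) rfl
      (hq.good w (I2_under w) ((hSf w).1 hw) rfl) (Sub6.inertia hS w)
  refine ⟨Λ, hlc, ?_, fun hb => ?_, fun hb => ?_⟩ <;> rw [hval]
  · exact ((Int2_of_unit hu).mul ((Int2_of_unit hEu).mul h.int)).add (Non2_two hr).int
  · exact Unit2_add (hu.mul (hEu.mul (h.unit hb))) hr
  · exact (Int2.mul_non (Int2_of_unit hu) (Int2.mul_non (Int2_of_unit hEu) (h.non hb))).add
      (Non2_two hr)

theorem goodRam_iff (K : Type) [Field K] [NumberField K] [Algebra F K] : GoodRam K ↔ ¬ Bad K := by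
  constructor
  · rintro h ⟨w, h6, hx, he⟩
    exact he ((e_iff w (fun h3 => h6 (six_of_three w h3))).1 (h w h6 hx))
  · intro h w h6 hx
    by_contra he
    exact h ⟨w, h6, hx, fun h1 => he ((e_iff w (fun h3 => h6 (six_of_three w h3))).2 h1)⟩

/-- Assembly of the criterion from the value at 1. -/
theorem crit_of_val (K : Type) [Field K] [NumberField K] (hK : Cls6 K) (d : ℤ) (hd : AdmD d)
    (hA : UnrAt d K) (hD : Odd (NumberField.discr K)) (hE : Odd (torsd d K))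
    (ht : ∀ w : HeightOneSpectrum (𝓞 K), Odd (tamd d K w)) (Λ : ℂ → ℂ)
    (a1 : AnalyticOnNhd ℂ Λ {s | 1 / 2 < s.re})
    (a2 : ∀ s : ℂ, 3 / 2 < s.re →
      LSeriesSummable (fun n => ((((Ed d).baseChange K).LFunction n : ℤ) : ℂ)) s ∧
      Λ s = ((Ed d).baseChange K).LSeries s)
    (hi : Int2 (Λ 1 / R0 ^ (InfinitePlace.nrRealPlaces K + 2 * InfinitePlace.nrComplexPlaces K)))
    (hg : GoodRam K →
      Unit2 (Λ 1 / R0 ^ (InfinitePlace.nrRealPlaces K + 2 * InfinitePlace.nrComplexPlaces K)))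
    (hb : ¬ GoodRam K →
      Non2 (Λ 1 / R0 ^ (InfinitePlace.nrRealPlaces K + 2 * InfinitePlace.nrComplexPlaces K))) :
    Crit d K := by
  have hsg : SelZ d K ↔ GoodRam K :=
    ⟨fun hs => sel_iff K hK d hd hs, fun h => (H55E.main K (cls_of_goodRam K hK h) d hd hA).1.1⟩
  refine ⟨period_existsd d hd, Λ, a1, a2, fun L g2 g3 => ?_⟩
  obtain ⟨u, hu, hsha⟩ := shaTd_eq K d hd hD hE ht L g2 g3
  rw [hsha]
  refine ⟨hi.mul (Int2_of_unit hu), ?_, hsg, fun hs => ?_⟩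
  · constructor
    · intro hs
      have h1 := hg (hsg.1 hs)
      exact ⟨(div_ne_zero_iff.1 h1.ne_zero).1, h1.mul hu⟩
    · rintro ⟨-, h⟩
      rw [hsg]
      by_contra hng
      exact ((hb hng).mul_int (Int2_of_unit hu)).not_unit h
  · exact (hb fun h => hs (hsg.2 h)).mul_int (Int2_of_unit hu)

/-- Fields containing the cube roots of unity. -/
theorem critF (K : Type) [Field K] [NumberField K] [Algebra F K] (hK : Cls6 K) (hS : Sub6 K)
    (d : ℤ) (hd : AdmD d) (hA : UnrAt d K) : Crit d K := by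
  obtain ⟨k, hk⟩ := sub6_rank hS
  obtain ⟨ΛK, hΛK⟩ := L_all k K hS hk
  obtain ⟨Λd, hΛd⟩ := twist_d K hS d hd ΛK hΛK
  obtain ⟨Λ, a1, a2, a3⟩ := L_of_lc K (sub6_unrSix hS) d hd hA Λd hΛd.lc
  obtain ⟨K', i1, i2, i3, i4, ⟨δ, hδ⟩, hS'⟩ := exists_sqrt_any6 K hS d hd
  obtain ⟨k', hk'⟩ := sub6_rank hS'
  refine crit_of_val K hK d hd hA (H19Y.odd_discr K (sub6_unrSix hS))
    (tors_odd K K' k' hk' d hd.ne_zero δ hδ) (tamd_odd6 K K hS d hd hA) Λ a1 a2 ?_ ?_ ?_ <;>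
    rw [rankF K, a3]
  · exact hΛd.int.mul (Int2.conj hΛd.int)
  · intro hg
    have h1 := hΛd.unit ((goodRam_iff K).1 hg)
    exact h1.mul h1.conj
  · intro hg
    have h1 := hΛd.non (by
      by_contra h
      exact hg ((goodRam_iff K).2 h))
    exact h1.mul_int (Int2.conj hΛd.int)

/-- Fields not containing the cube roots of unity. -/
theorem crit0 (K₀ K : Type) [Field K₀] [NumberField K₀] [Field K] [NumberField K] [Algebra F K]
    [Algebra K₀ K] (hQ : H13E.Quad K₀ K) (hK : Cls6 K₀) (hS : Sub6 K) (d : ℤ) (hd : AdmD d)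
    (hA : UnrAt d K₀) : Crit d K₀ := by
  obtain ⟨k, hk⟩ := sub6_rank hS
  obtain ⟨ΛK, hΛK⟩ := L_all k K hS hk
  obtain ⟨Λd, hΛd⟩ := twist_d K hS d hd ΛK hΛK
  obtain ⟨a1, a2⟩ := L_of_lc0 hQ (sub6_unrSix hS) d hd hA Λd hΛd.lc
  obtain ⟨K', i1, i2, i3, i4, ⟨δ, hδ⟩, hS'⟩ := exists_sqrt_any6 K hS d hd
  obtain ⟨k', hk'⟩ := sub6_rank hS'
  letI : Algebra K₀ K' := ((algebraMap K K').comp (algebraMap K₀ K)).toAlgebra
  refine crit_of_val K₀ hK d hd hA (H19Y.odd_discr0 K (sub6_unrSix hS))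
    (tors_odd K₀ K' k' hk' d hd.ne_zero δ hδ) (tamd_odd6 K₀ K hS d hd hA) Λd a1 a2 ?_ ?_ ?_ <;>
    rw [rank0 K₀ K hQ]
  · exact hΛd.int
  · intro hg
    exact hΛd.unit ((goodRam_iff K).1 (good_up hQ hg))
  · intro hg
    refine hΛd.non ?_
    by_contra h
    exact hg (bad_up hQ ((goodRam_iff K).2 h))

/-- THEOREM (the exact criterion at 2). -/
theorem crit (K : Type) [Field K] [NumberField K] (hK : Cls6 K) (d : ℤ) (hd : AdmD d)
    (hA : UnrAt d K) : Crit d K := by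
  rcases cls6_cases K hK with ⟨i1, hS⟩ | ⟨K₁, i1, i2, i3, i4, hQ, hS⟩
  · exact critF K hK hS d hd hA
  · exact crit0 K K₁ hQ hK hS d hd hA

/-- In the good case the conclusions of TwoPart hold. -/
theorem bsd_of_good (K : Type) [Field K] [NumberField K] (hK : Cls6 K) (hg : GoodRam K) (d : ℤ)
    (hd : AdmD d) (hA : UnrAt d K) : BSD2d d K :=
  H55E.main K (cls_of_goodRam K hK hg) d hd hA

end H19Y
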